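import Pool.Agent.Q59.SX.Fin
import Pool.Agent.Y2.Cv.Families

/-!
# Hodge characters of odd degree with at most eight entries
-/

namespace Pool.Agent.Q59.SX

open Finset Pool.Agent.H916R2 Pool.Agent.Q59.FS Pool.Agent.Y2.Cv

/-- An odd distribution which kills the base kills the characters generated by it. -/
lemma sum_of_generated {n : ℕ} [NeZero n] {base : Multiset (ZMod n) → Prop} {Q : Type*}
    [AddCommGroup Q] {c : ZMod n → Q} (hc : OddDist c) (hb : ∀ s, base s → (s.map c).sum = 0)
    {s : Multiset (ZMod n)} (h : Generated n base s) : (s.map c).sum = 0 := by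
  induction h with
  | ofBase s hs => exact hb s hs
  | pair a _ =>
    simp only [Multiset.insert_eq_cons, Multiset.map_cons, Multiset.map_singleton,
      Multiset.sum_cons, Multiset.sum_singleton]
    rw [hc.neg, add_neg_cancel]
  | standard p hp hp2 hpm a _ =>
    rw [Multiset.map_cons, Multiset.sum_cons, Multiset.map_map, hc.neg]
    have h1 := hc.dist p (n / p) hp (Nat.mul_div_cancel' hpm) a
    have h2 : (Multiset.map (c ∘ fun i : ℕ => a + (i : ZMod n) * ((n / p : ℕ) : ZMod n))
        (Multiset.range p)).sum = c ((p : ZMod n) * a) := by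
      rw [← h1]
      rfl
    rw [h2, neg_add_cancel]
  | standardTwo hm a _ =>
    simp only [Multiset.insert_eq_cons, Multiset.map_cons, Multiset.map_singleton,
      Multiset.sum_cons, Multiset.sum_singleton]
    have h1 := hc.dist 2 (n / 2) Nat.prime_two (Nat.mul_div_cancel' hm) a
    rw [sum_range_succ, sum_range_one] at h1
    have h2 : c ((n / 2 : ℕ) : ZMod n) = 0 := by
      apply hc.half
      rw [← two_mul]
      have : ((2 : ℕ) : ZMod n) * ((n / 2 : ℕ) : ZMod n) = ((2 * (n / 2) : ℕ) : ZMod n) := by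
        push_cast; rfl
      have e : (2 : ZMod n) = ((2 : ℕ) : ZMod n) := by norm_num
      rw [e, this, Nat.mul_div_cancel' hm, ZMod.natCast_self]
    push_cast at h1 h2 ⊢
    rw [h2, hc.neg, ← h1]
    simp
  | join s t _ _ ihs iht => rw [Multiset.map_add, Multiset.sum_add, ihs, iht, add_zero]
  | cancel a s _ ih =>
    rw [Multiset.map_cons, Multiset.map_cons, Multiset.sum_cons, Multiset.sum_cons, hc.neg] at ih
    rw [← ih]; abel

lemma good_of_Hl {M : ℕ} (hM : M % 2 = 1) (h : Hl M) : GoodDegree2 M := by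
  have h4 : ¬ 4 ∣ M := by omega
  have hp : ∀ {q : ℕ}, q.Prime → M ∣ 3 * q → ∀ p : ℕ, p.Prime → p ∣ M → p = 3 ∨ p = q := by
    intro q hq hMq p hp hpM
    rcases hp.dvd_mul.mp (hpM.trans hMq) with h | h
    · exact Or.inl ((Nat.prime_dvd_prime_iff_eq hp Nat.prime_three).mp h)
    · exact Or.inr ((Nat.prime_dvd_prime_iff_eq hp hq).mp h)
  rcases h with h | h | h | h
  · exact Or.inr (Or.inr (Or.inr (Or.inr (Or.inr (Or.inl ⟨h4, Or.inl fun p hp hpM =>
      Or.inr (h p hp hpM)⟩)))))
  · exact Or.inr (Or.inr (Or.inr (Or.inl fun p hpp hpM =>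
      Or.inr (hp (q := 11) (by norm_num) h p hpp hpM))))
  · exact Or.inr (Or.inr (Or.inr (Or.inr (Or.inl fun p hpp hpM =>
      Or.inr (hp (q := 13) (by norm_num) h p hpp hpM)))))
  · exact Or.inr (Or.inr (Or.inr (Or.inr (Or.inr (Or.inl ⟨h4, Or.inr (Or.inl fun p hpp hpM =>
      Or.inr (hp (q := 17) (by norm_num) h p hpp hpM))⟩)))))

/-- The harmless levels are known. -/
theorem known_double {m : ℕ} [NeZero m] [NeZero (2 * m)] (hm : m % 2 = 1) {Q : Type}
    [AddCommGroup Q] {C : ZMod (2 * m) → Q} (hC : OddDist C)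
    (hb : ∀ s, SurfaceOrCurveProduct (2 * m) s → (s.map C).sum = 0) :
    Known (fun a : ZMod m => C (iota 2 a)) := by
  intro k M _ hkM hM y hy
  have hMpos : 0 < M := Nat.pos_of_ne_zero (NeZero.ne M)
  have hMm : M ∣ m := Dvd.intro_left k hkM
  have hModd : M % 2 = 1 := by
    have h1 : (k * M) % 2 = 1 := by rw [hkM]; exact hm
    rw [Nat.mul_mod] at h1
    rcases Nat.mod_two_eq_zero_or_one M with h2 | h2
    · rw [h2] at h1; simp at h1
    · exact h2
  have hk2 : k * (2 * M) = 2 * m := by rw [← hkM]; ring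
  have : NeZero (2 * M) := ⟨by omega⟩
  have hOdd : OddDist (fun b : ZMod M => C (iota 2 (iota k b : ZMod m))) := by
    have h1 := (hC.comp_iota (k := 2) (m0 := m) rfl).comp_iota (k := k) (m0 := M) hkM
    exact h1
  obtain ⟨s, hs, hsum⟩ := exists_hodge y hy
  rw [hsum Q _ hOdd]
  by_cases hne : s = 0
  · rw [hne]; simp
  have hgen := main2_odd hMpos (by omega) (good_of_Hl hModd hM) s hs hne
  have hC' : OddDist (fun b : ZMod (2 * M) => C (iota k b)) := hC.comp_iota hk2
  have hb' : ∀ u, SurfaceOrCurveProduct (2 * M) u →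
      (u.map (fun b : ZMod (2 * M) => C (iota k b))).sum = 0 := by
    intro u hu
    have h1 : SurfaceOrCurveProduct (2 * m) (u.map (iota k : ZMod (2 * M) → ZMod (2 * m))) := by
      rcases hu with ⟨h1, h2⟩ | h1
      · exact Or.inl ⟨h1.iota hk2, by rw [Multiset.card_map]; exact h2⟩
      · exact Or.inr (h1.lift hk2)
    have h2 := hb _ h1
    rw [Multiset.map_map] at h2
    exact h2
  have h3 := sum_of_generated hC' hb' hgen
  rw [Multiset.map_map] at h3
  rw [← h3]
  congr 1
  refine Multiset.map_congr rfl fun b _ => ?_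
  simp only [Function.comp_apply]
  have e1 : (iota 2 (iota k b : ZMod m) : ZMod (2 * m)) = iota (2 * k) b := iota_comp rfl b
  have e2 : (iota k (iota 2 b : ZMod (2 * M)) : ZMod (2 * m)) = iota (k * 2) b := iota_comp hk2 b
  have e3 : ((2 * b.val : ℕ) : ZMod (2 * M)) = iota 2 b := rfl
  rw [e3, e1, e2, mul_comm 2 k]

lemma od_count_le {m : ℕ} [NeZero m] (s : Multiset (ZMod m)) :
    ∑ a, |od (fun a : ZMod m => ((s.count a : ℕ) : ℤ)) a| ≤ 2 * Multiset.card s := by
  have h1 : ∑ a : ZMod m, ((s.count a : ℕ) : ℤ) = Multiset.card s := by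
    have := sum_count s (fun _ : ZMod m => (1 : ℤ))
    simp only [smul_eq_mul, mul_one] at this
    rw [this]
    simp
  have h2 : ∑ a : ZMod m, ((s.count (-a) : ℕ) : ℤ) = Multiset.card s := by
    rw [← h1]
    exact Fintype.sum_equiv (Equiv.neg _) _ _ fun a => rfl
  calc ∑ a, |od (fun a : ZMod m => ((s.count a : ℕ) : ℤ)) a|
      ≤ ∑ a : ZMod m, (((s.count a : ℕ) : ℤ) + ((s.count (-a) : ℕ) : ℤ)) := by
        refine sum_le_sum fun a _ => ?_
        unfold od
        have := abs_sub ((s.count a : ℕ) : ℤ) ((s.count (-a) : ℕ) : ℤ)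
        rwa [abs_of_nonneg (by positivity : (0 : ℤ) ≤ ((s.count a : ℕ) : ℤ)),
          abs_of_nonneg (by positivity : (0 : ℤ) ≤ ((s.count (-a) : ℕ) : ℤ))] at this
    _ = 2 * Multiset.card s := by rw [sum_add_distrib, h1, h2]; ring

/-- **Hodge characters of odd degree with at most eight entries.** -/
theorem main_eight {m : ℕ} (hm : m % 2 = 1) (s : Multiset (ZMod m)) (hs : IsHodge m s)
    (hcard : Multiset.card s ≤ 8) (hne : s ≠ 0) :
    Generated (2 * m) (SurfaceOrCurveProduct (2 * m))
      (s.map fun a => ((2 * a.val : ℕ) : ZMod (2 * m))) := by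
  have hm0 : m ≠ 0 := by rintro rfl; simp at hm
  have : NeZero m := ⟨hm0⟩
  have : NeZero (2 * m) := ⟨by omega⟩
  set C := cQ (2 * m) (SurfaceOrCurveProduct (2 * m)) with hCdef
  have hC : OddDist C := cQ_oddDist
  have hK := known_double hm hC (fun u hu => cQ_sum_eq_zero (Generated.ofBase u hu))
  have h16 : ∑ a, |od (fun a : ZMod m => ((s.count a : ℕ) : ℤ)) a| ≤ 16 := by
    refine (od_count_le s).trans ?_
    have : (Multiset.card s : ℤ) ≤ 8 := by exact_mod_cast hcard
    linarith
  have h1 := kill_short_odd hm (hC.comp_iota (k := 2) (m0 := m) rfl) hK hs.rel h16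
  rw [sum_count] at h1
  have h2s := hs.iota (m := 2 * m) (k := 2) rfl
  have h2 : ((s.map (iota 2 : ZMod m → ZMod (2 * m))).map C).sum = 0 := by
    rw [Multiset.map_map]
    exact h1
  rw [hCdef, cQ_sum, QuotientAddGroup.eq_zero_iff] at h2
  exact generated_of_mem_LL base_good base_neg h2s.1 h2s.2.1 (by
    intro h
    rw [Multiset.map_eq_zero] at h
    exact hne h) h2

end Pool.Agent.Q59.SX
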