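import Pool.Agent.Q59.SX.Dec

/-!
# Selection of the shortest slice
-/

namespace Pool.Agent.Q59.SX

open Finset Pool.Agent.Q59.FS

section Sel

variable {G : Type*} [CommGroup G] [Fintype G]

omit [Fintype G] in
lemma aux1 (a u κ s : G) : a⁻¹ * (u * κ) * (a⁻¹ * (u * s))⁻¹ = κ * s⁻¹ := by
  rw [mul_inv_eq_iff_eq_mul]
  calc a⁻¹ * (u * κ) = a⁻¹ * (u * κ) * (s⁻¹ * s) := by rw [inv_mul_cancel, mul_one]
    _ = _ := by simp only [mul_comm, mul_left_comm, mul_assoc]

omit [Fintype G] in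
lemma aux2 (a u w s : G) : a⁻¹ * (u * w * s) * w⁻¹ = a⁻¹ * (u * s) := by
  rw [mul_inv_eq_iff_eq_mul]
  simp only [mul_comm, mul_left_comm, mul_assoc]

omit [Fintype G] in
lemma aux3 (a b s w : G) : a * b * w * s⁻¹ = a * (b * s⁻¹) * w := by
  simp only [mul_comm, mul_left_comm, mul_assoc]

/-- the selected slice -/
structure IsSel (K : Subgroup G) (P : List (Subgroup G)) (e : G) (F g : G → ℤ) : Prop where
  inv : ∀ κ ∈ K, ∀ u, g (u * κ) = g u
  odd : ∀ u, g (e * u) = - g u
  slice : ∀ u, ∃ κ ∈ K, ∀ v ∈ jn P, g (u * v) = F (u * v * κ)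
  le : ∑ u, |g u| ≤ ∑ u, |F u|
  rest : Nat.card K * ∑ u, |F u - g u| ≤ Nat.card K * ∑ u, |F u| + (Nat.card K - 2) * ∑ u, |g u|

theorem exists_sel (K : Subgroup G) (P : List (Subgroup G)) (e : G) (F : G → ℤ)
    (hF : ∀ u, F (e * u) = - F u) (hind : K ⊓ (jn P ⊔ Subgroup.zpowers e) = ⊥) :
    ∃ g : G → ℤ, IsSel K P e F g := by
  classical
  set N : G → ℤ := fun u => nrm P (TT u F) with hN
  set H : Subgroup G := jn P ⊔ Subgroup.zpowers e with hH
  set S : Subgroup G := K ⊔ H with hS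
  have heH : e ∈ H := (le_sup_right : Subgroup.zpowers e ≤ H) (Subgroup.mem_zpowers e)
  -- the norm of a slice is invariant under `H`
  let stab : Subgroup G :=
    { carrier := {z | ∀ x, N (x * z) = N x}
      mul_mem' := by
        intro a b ha hb x
        rw [← mul_assoc, hb, ha]
      one_mem' := by intro x; rw [mul_one]
      inv_mem' := by
        intro a ha x
        have := ha (x * a⁻¹)
        rw [inv_mul_cancel_right] at this
        exact this.symm }
  have hHs : H ≤ stab := by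
    refine sup_le (fun v hv x => nrm_TT_jn x v F hv) ?_
    rw [Subgroup.zpowers_le]
    intro x
    change nrm P (TT (x * e) F) = nrm P (TT x F)
    have e1 : TT (x * e) F = fun v => - TT x F v := by
      funext v
      simp only [TT_apply]
      rw [← hF]
      congr 1
      rw [mul_comm x e, mul_assoc]
    rw [e1, nrm_neg]
  have hNH : ∀ x, ∀ w ∈ H, N (x * w) = N x := fun x w hw => hHs hw x
  -- the representatives
  have hmin : ∀ r : G, ∃ κ ∈ K, ∀ κ' ∈ K, N (r * κ) ≤ N (r * κ') := by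
    intro r
    obtain ⟨κ, hκ, h⟩ := exists_min_image (KF K) (fun κ => N (r * κ))
      ⟨1, mem_KF.mpr K.one_mem⟩
    exact ⟨κ, mem_KF.mp hκ, fun κ' hκ' => h κ' (mem_KF.mpr hκ')⟩
  choose μ hμK hμ using hmin
  let r : G → G := fun u => (QuotientGroup.mk u : G ⧸ S).out
  let ρ : G → G := fun u => r u * μ (r u)
  have hr : ∀ u, ∀ s ∈ S, r (u * s) = r u := by
    intro u s hs
    simp only [r]
    congr 1
    rw [QuotientGroup.eq]
    have : (u * s)⁻¹ * u = s⁻¹ := by rw [mul_inv, mul_comm u⁻¹ s⁻¹, mul_assoc, inv_mul_cancel, mul_one]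
    rw [this]
    exact S.inv_mem hs
  have hρ : ∀ u, ∀ s ∈ S, ρ (u * s) = ρ u := by
    intro u s hs
    simp only [ρ]
    rw [hr u s hs]
  have hex : ∀ u, ∃ κ ∈ K, (ρ u)⁻¹ * (u * κ) ∈ H := by
    intro u
    have h1 : (r u)⁻¹ * u ∈ S := by
      rw [← QuotientGroup.eq]
      exact Quotient.out_eq' _
    have h2 : (ρ u)⁻¹ * u ∈ S := by
      have : (ρ u)⁻¹ * u = (μ (r u))⁻¹ * ((r u)⁻¹ * u) := by
        simp only [ρ]
        rw [mul_inv, mul_comm (r u)⁻¹, mul_assoc]
      rw [this]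
      exact S.mul_mem ((le_sup_left : K ≤ S) (K.inv_mem (hμK _))) h1
    obtain ⟨κ, hκ, w, hw, h⟩ := Subgroup.mem_sup.mp h2
    refine ⟨κ⁻¹, K.inv_mem hκ, ?_⟩
    have : (ρ u)⁻¹ * (u * κ⁻¹) = w := by
      rw [← mul_assoc, ← h, mul_comm κ w, mul_inv_cancel_right]
    rw [this]
    exact hw
  choose σ hσK hσ using hex
  have huniq : ∀ u, ∀ κ ∈ K, (ρ u)⁻¹ * (u * κ) ∈ H → κ = σ u := by
    intro u κ hκ h
    have h1 : κ * (σ u)⁻¹ ∈ K ⊓ H := by
      refine ⟨K.mul_mem hκ (K.inv_mem (hσK u)), ?_⟩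
      have h2 := H.mul_mem h (H.inv_mem (hσ u))
      rw [aux1] at h2
      exact h2
    rw [hind, Subgroup.mem_bot] at h1
    exact mul_inv_eq_one.mp h1
  have σK : ∀ u, ∀ κ ∈ K, κ * σ (u * κ) = σ u := by
    intro u κ hκ
    apply huniq
    · exact K.mul_mem hκ (hσK _)
    · have := hσ (u * κ)
      rw [hρ u κ ((le_sup_left : K ≤ S) hκ), mul_assoc u κ] at this
      exact this
  have σH : ∀ u, ∀ w ∈ H, σ (u * w) = σ u := by
    intro u w hw
    apply huniq
    · exact hσK _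
    · have h1 := hσ (u * w)
      rw [hρ u w ((le_sup_right : H ≤ S) hw)] at h1
      have h2 := H.mul_mem h1 (H.inv_mem hw)
      rw [aux2] at h2
      exact h2
  have hle : ∀ u, N (u * σ u) ≤ N u := by
    intro u
    -- `u σ(u) = ρ w`
    set w := (ρ u)⁻¹ * (u * σ u) with hw
    have hwH : w ∈ H := hσ u
    have e1 : u * σ u = ρ u * w := by rw [hw, mul_inv_cancel_left]
    have e2 : u = r u * (μ (r u) * (σ u)⁻¹) * w := by
      have : u = u * σ u * (σ u)⁻¹ := by rw [mul_inv_cancel_right]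
      rw [e1] at this
      calc u = ρ u * w * (σ u)⁻¹ := this
        _ = _ := aux3 _ _ _ _
    have h1 : N (u * σ u) = N (r u * μ (r u)) := by rw [e1, hNH _ _ hwH]
    have h2 : N u = N (r u * (μ (r u) * (σ u)⁻¹)) := by
      conv_lhs => rw [e2]
      rw [hNH _ _ hwH]
    rw [h1, h2]
    exact hμ _ _ (K.mul_mem (hμK _) (K.inv_mem (hσK u)))
  refine ⟨fun u => F (u * σ u), ?_, ?_, ?_, ?_, ?_⟩
  · intro κ hκ u
    rw [mul_assoc, σK u κ hκ]
  · intro u
    have h1 : σ (e * u) = σ u := by rw [mul_comm]; exact σH u e heH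
    rw [h1, mul_assoc, hF]
  · intro u
    refine ⟨σ u, hσK u, fun v hv => ?_⟩
    have h1 : σ (u * v) = σ u := σH u v ((le_sup_left : jn P ≤ H) hv)
    rw [h1]
  · -- the norms
    have h1 : ∀ u, nrm P (TT u (fun u => F (u * σ u))) = N (u * σ u) := by
      intro u
      refine nrm_congr fun v hv => ?_
      simp only [TT_apply]
      rw [σH u v ((le_sup_left : jn P ≤ H) hv), mul_right_comm]
    have h2 := sum_le_sum fun u (_ : u ∈ univ) => hle u
    have h3 : ∑ u, nrm P (TT u (fun u => F (u * σ u))) ≤ ∑ u, nrm P (TT u F) := by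
      rw [sum_congr rfl fun u _ => h1 u]
      exact h2
    rw [sum_nrm, sum_nrm] at h3
    exact le_of_mul_le_mul_left h3 (pc_pos P)
  · -- the rest
    set g : G → ℤ := fun u => F (u * σ u) with hg
    have hginv : ∀ κ ∈ K, ∀ u, g (u * κ) = g u := by
      intro κ hκ u
      simp only [hg]
      rw [mul_assoc, σK u κ hκ]
    have loc : ∀ u, ∑ κ ∈ KF K, |F (u * κ) - g (u * κ)| ≤
        ∑ κ ∈ KF K, |F (u * κ)| + (Nat.card K - 2) * |g u| := by
      intro u
      have hmem : σ u ∈ KF K := mem_KF.mpr (hσK u)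
      rw [← add_sum_erase _ _ hmem, ← add_sum_erase (KF K) (fun κ => |F (u * κ)|) hmem]
      have h1 : |F (u * σ u) - g (u * σ u)| = 0 := by
        rw [hginv _ (hσK u), abs_eq_zero]
        simp only [hg]
        ring
      have h2 : ∑ κ ∈ (KF K).erase (σ u), |F (u * κ) - g (u * κ)| ≤
          ∑ κ ∈ (KF K).erase (σ u), (|F (u * κ)| + |g u|) := by
        refine sum_le_sum fun κ hκ => ?_
        rw [hginv _ (mem_KF.mp (mem_of_mem_erase hκ))]
        exact abs_sub _ _
      rw [sum_add_distrib, sum_const, card_erase_of_mem hmem, card_KF, nsmul_eq_mul] at h2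
      have h3 : 1 ≤ Nat.card K := Nat.card_pos
      rw [Nat.cast_sub h3] at h2
      have h4 : |F (u * σ u)| = |g u| := rfl
      rw [h1, h4]
      push_cast at h2
      linarith
    have h1 := sum_le_sum fun u (_ : u ∈ univ) => loc u
    have s1 : ∀ f : G → ℤ, ∑ u, ∑ κ ∈ KF K, f (u * κ) = Nat.card K * ∑ u, f u := by
      intro f
      rw [sum_comm]
      have : ∀ κ ∈ KF K, ∑ u, f (u * κ) = ∑ u, f u := fun κ _ =>
        Fintype.sum_equiv (Equiv.mulRight κ) _ _ fun u => rfl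
      rw [sum_congr rfl this, sum_const, card_KF, nsmul_eq_mul]
    rw [sum_add_distrib, ← mul_sum, s1 (fun u => |F u - g u|), s1 (fun u => |F u|)] at h1
    exact h1

/-- box sums of the rest -/
lemma IsSel.lb {K : Subgroup G} {P : List (Subgroup G)} {e : G} {F g : G → ℤ}
    (h : IsSel K P e F g) {u : G} (hLB : LB (K :: P) (TT u F)) :
    LB P (TT u (fun v => F v - g v)) := by
  obtain ⟨κ, hκ, hs⟩ := h.slice u
  have h1 := hLB 1 K.one_mem κ hκ
  refine h1.congr fun v hv => ?_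
  simp only [TT_apply, mul_one]
  rw [hs v hv, mul_assoc]

/-- norm of the rest -/
lemma IsSel.nrm_le {K : Subgroup G} {P : List (Subgroup G)} {e : G} {F g : G → ℤ}
    (h : IsSel K P e F g) (u : G) :
    nrm P (TT u (fun v => F v - g v)) ≤ nrm (K :: P) (TT u F) := by
  classical
  obtain ⟨κ, hκ, hs⟩ := h.slice u
  by_cases hκ1 : κ = 1
  · have h1 : nrm P (TT u (fun v => F v - g v)) = 0 := by
      rw [nrm_eq_zero]
      refine ZZ.of_forall fun v hv => ?_
      simp only [TT_apply]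
      rw [hs v hv, hκ1, mul_one, sub_self]
    rw [h1]
    exact nrm_nonneg _ _
  · have h1 : nrm P (TT u (fun v => F v - g v)) ≤ nrm P (TT u F) + nrm P (TT (u * κ) F) := by
      have h2 := nrm_sub_le (P := P) (TT u F) (TT (u * κ) F)
      refine le_trans (le_of_eq (nrm_congr fun v hv => ?_)) h2
      simp only [TT_apply]
      rw [hs v hv, mul_right_comm]
    refine h1.trans ?_
    rw [nrm_cons_TT]
    have h3 : ∑ z ∈ ({1, κ} : Finset G), nrm P (TT (u * z) F) ≤
        ∑ z ∈ KF K, nrm P (TT (u * z) F) := by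
      refine sum_le_sum_of_subset_of_nonneg ?_ (fun _ _ _ => nrm_nonneg _ _)
      intro z hz
      rcases mem_insert.mp hz with rfl | hz
      · exact mem_KF.mpr (Subgroup.one_mem _)
      · rw [mem_singleton] at hz; rw [hz]; exact mem_KF.mpr hκ
    rw [sum_pair (Ne.symm hκ1), mul_one] at h3
    exact h3

end Sel

end Pool.Agent.Q59.SX
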