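import Pool.Agent.Q59.SX.Wt

/-!
# The reduction to harmless orders
-/

namespace Pool.Agent.Q59.SX

open Finset Pool.Agent.H916R2 Pool.Agent.Q59.FS

/-- the harmless orders -/
def Hl (n : ℕ) : Prop :=
  (∀ p : ℕ, p.Prime → p ∣ n → p = 3 ∨ p = 5 ∨ p = 7) ∨ n ∣ 33 ∨ n ∣ 39 ∨ n ∣ 51

lemma Hl.of_dvd {n n' : ℕ} (h : n ∣ n') (hn : Hl n') : Hl n := by
  rcases hn with h1 | h1 | h1 | h1
  · exact Or.inl fun p hp hpn => h1 p hp (hpn.trans h)
  · exact Or.inr (Or.inl (h.trans h1))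
  · exact Or.inr (Or.inr (Or.inl (h.trans h1)))
  · exact Or.inr (Or.inr (Or.inr (h.trans h1)))

lemma exists_big {d : ℕ} (hd : d % 2 = 1) (h : ¬ Hl d) : ∃ p : ℕ, p.Prime ∧ 11 ≤ p ∧ p ∣ d := by
  by_contra hcon
  push Not at hcon
  apply h
  left
  intro p hp hpd
  have h1 : p < 11 := by
    by_contra h2
    push Not at h2
    exact hcon p hp h2 hpd
  have h2 : p ≠ 2 := by rintro rfl; omega
  have h3 := hp.two_le
  interval_cases p
  · exact absurd rfl h2
  · left; rfl
  · exact absurd hp (by norm_num)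
  · right; left; rfl
  · exact absurd hp (by norm_num)
  · right; right; rfl
  · exact absurd hp (by norm_num)
  · exact absurd hp (by norm_num)
  · exact absurd hp (by norm_num)

lemma nineteen {d p : ℕ} (h : ¬ Hl d) (hp : p.Prime) (h11 : 11 ≤ p) (hd : d = 3 * p) : 19 ≤ p := by
  by_contra hcon
  push Not at hcon
  apply h
  interval_cases p
  · right; left; rw [hd]
  · exact absurd hp (by norm_num)
  · right; right; left; rw [hd]
  · exact absurd hp (by norm_num)
  · exact absurd hp (by norm_num)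
  · exact absurd hp (by norm_num)
  · right; right; right; rw [hd]
  · exact absurd hp (by norm_num)

section Top

variable {m : ℕ} [NeZero m]

/-- The relations in an order which is maximal for divisibility. -/
theorem top_rel' {R d : ℕ} [NeZero d] (hR : R * d = m) {x : ZMod m → ℤ} (hx : Rel x)
    (htop : ∀ a, od x a ≠ 0 → d ∣ addOrderOf a → addOrderOf a = d) {b : (ZMod d)ˣ → ℤ}
    (hb : ∀ ℓ : ℕ, ℓ.Prime → ℓ ∣ d → ∀ u, ∑ κ ∈ KF (KL d ℓ), b (u * κ) = 0) :
    ∑ u : (ZMod d)ˣ, od x (iota R (u : ZMod d)) * b u = 0 := by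
  classical
  -- the odd case
  have key : ∀ b : (ZMod d)ˣ → ℤ, (∀ u, b (-u) = - b u) →
      (∀ ℓ : ℕ, ℓ.Prime → ℓ ∣ d → ∀ u, ∑ κ ∈ KF (KL d ℓ), b (u * κ) = 0) →
      ∑ u : (ZMod d)ˣ, od x (iota R (u : ZMod d)) * b u = 0 := by
    intro b hodd hb
    obtain ⟨φ0, h0, h0'⟩ := base_PD hR hodd hb
    obtain ⟨φ, h1, h1'⟩ := h0.extend (Dvd.intro_left R hR)
    have hval : ∀ u : (ZMod d)ˣ, φ (iota R (u : ZMod d)) = b u := by
      intro u
      rw [h1' _ ?_, h0']
      have := addOrderOf_nsmul_eq_zero (iota R (u : ZMod d) : ZMod m)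
      rw [addOrderOf_iota_unit hR u, nsmul_eq_mul] at this
      exact this
    have h2 := rel_rat hx h1.oddDist
    have h3 : ∑ a, ((od x a : ℤ) : ℚ) * φ a = 0 := by
      have h4 : ∑ a, (x (-a) : ℚ) * φ a = - ∑ a, (x a : ℚ) * φ a := by
        rw [← sum_neg_distrib]
        refine Fintype.sum_equiv (Equiv.neg _) _ _ fun a => ?_
        simp only [Equiv.neg_apply]
        rw [h1.neg]; ring
      unfold od
      push_cast
      simp only [sub_mul]
      rw [sum_sub_distrib, h4, h2]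
      ring
    have h4 : ∑ a, ((od x a : ℤ) : ℚ) * φ a =
        ∑ a ∈ univ.filter (fun a : ZMod m => addOrderOf a = d), ((od x a : ℤ) : ℚ) * φ a := by
      symm
      apply sum_subset (subset_univ _)
      intro a _ ha
      have hne : addOrderOf a ≠ d := fun h => ha (mem_filter.mpr ⟨mem_univ _, h⟩)
      by_cases h5 : φ a = 0
      · rw [h5, mul_zero]
      · by_cases h6 : od x a = 0
        · rw [h6]; simp
        · exfalso
          apply hne
          exact htop a h6 (h1.ord a h5)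
    rw [h4, sum_order hR] at h3
    have h5 : ((∑ u : (ZMod d)ˣ, od x (iota R (u : ZMod d)) * b u : ℤ) : ℚ) = 0 := by
      rw [← h3]
      push_cast
      exact sum_congr rfl fun u _ => by rw [hval]
    exact_mod_cast h5
  have h1 := key (fun u => b u - b (-u)) (fun u => by rw [neg_neg]; ring) (by
    intro ℓ hℓ hℓd u
    have h2 := hb ℓ hℓ hℓd u
    have h3 := hb ℓ hℓ hℓd (-u)
    rw [sum_sub_distrib, h2]
    have h4 : ∑ κ ∈ KF (KL d ℓ), b (-(u * κ)) = ∑ κ ∈ KF (KL d ℓ), b (-u * κ) :=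
      sum_congr rfl fun κ _ => by rw [neg_mul]
    rw [h4, h3, sub_zero])
  have h2 : ∑ u : (ZMod d)ˣ, od x (iota R (u : ZMod d)) * b (-u) =
      - ∑ u : (ZMod d)ˣ, od x (iota R (u : ZMod d)) * b u := by
    rw [← sum_neg_distrib]
    refine Fintype.sum_equiv (Equiv.neg _) _ _ fun u => ?_
    simp only [Equiv.neg_apply]
    rw [Units.val_neg, iota_neg hR, od_neg]
    ring
  simp only [mul_sub] at h1
  rw [sum_sub_distrib, h2] at h1
  omega

/-- box sums -/
theorem top_LB' {R d : ℕ} [NeZero d] (hR : R * d = m) {x : ZMod m → ℤ} (hx : Rel x)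
    (htop : ∀ a, od x a ≠ 0 → d ∣ addOrderOf a → addOrderOf a = d) {L : List ℕ}
    (hL : ∀ ℓ : ℕ, ℓ.Prime → ℓ ∣ d → ℓ ∈ L) (u : (ZMod d)ˣ) :
    LB (L.map (KL d)) (TT u (fun v => od x (iota R (v : ZMod d)))) := by
  apply lb_TT
  intro b hb
  apply top_rel' hR hx htop
  intro ℓ hℓ hℓd u
  exact hb _ (List.mem_map.mpr ⟨ℓ, hL ℓ hℓ hℓd, rfl⟩) u

/-- the measure -/
noncomputable def Phi1 (x : ZMod m → ℤ) : ℤ := ∑ a, (addOrderOf a : ℤ) * |od x a|

lemma Phi1_nonneg (x : ZMod m → ℤ) : 0 ≤ Phi1 x :=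
  sum_nonneg fun a _ => mul_nonneg (by positivity) (abs_nonneg _)

theorem kill_ind (hm : m % 2 = 1) {Q : Type} [AddCommGroup Q] {c : ZMod m → Q} (hc : OddDist c)
    (hfin : ∀ x : ZMod m → ℤ, Rel x → (∀ a, od x a ≠ 0 → Hl (addOrderOf a)) →
      ∑ a, x a • c a = 0) :
    ∀ (n : ℕ) (x : ZMod m → ℤ), (Phi1 x).toNat = n → Rel x →
      (∀ t, 0 < t → ¬ Hl t → ∑ a, wt t (addOrderOf a) * |od x a| ≤ 96) →
      ∑ a, x a • c a = 0 := by
  classical
  intro n
  induction n using Nat.strong_induction_on with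
  | _ n ih =>
    intro x hn hx hw
    by_cases hbad : ∀ a, od x a ≠ 0 → Hl (addOrderOf a)
    · exact hfin x hx hbad
    push Not at hbad
    obtain ⟨a1, ha1, hb1⟩ := hbad
    obtain ⟨a0, ha0, hmax⟩ := exists_max_image
      (univ.filter fun a : ZMod m => od x a ≠ 0 ∧ ¬ Hl (addOrderOf a))
      (fun a => addOrderOf a) ⟨a1, mem_filter.mpr ⟨mem_univ _, ha1, hb1⟩⟩
    obtain ⟨ha0', hb0⟩ := (mem_filter.mp ha0).2
    obtain ⟨d, hd⟩ : ∃ d, d = addOrderOf a0 := ⟨_, rfl⟩
    have hdpos : 0 < d := by rw [hd]; exact addOrderOf_pos a0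
    have : NeZero d := ⟨hdpos.ne'⟩
    rw [← hd] at hb0
    have htop : ∀ a, od x a ≠ 0 → d ∣ addOrderOf a → addOrderOf a = d := by
      intro a ha hda
      have h1 : ¬ Hl (addOrderOf a) := fun h => hb0 (h.of_dvd hda)
      have h2 := hmax a (mem_filter.mpr ⟨mem_univ _, ha, h1⟩)
      rw [← hd] at h2
      exact le_antisymm h2 (Nat.le_of_dvd (addOrderOf_pos a) hda)
    obtain ⟨R, hR0⟩ : d ∣ m := by
      rw [hd]
      have := addOrderOf_dvd_card (x := a0)
      rwa [ZMod.card] at this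
    have hR : R * d = m := by rw [hR0, mul_comm]
    have hdodd : d % 2 = 1 := by
      have h1 : (R * d) % 2 = 1 := by rw [hR]; exact hm
      rw [Nat.mul_mod] at h1
      rcases Nat.mod_two_eq_zero_or_one d with h2 | h2
      · rw [h2] at h1; simp at h1
      · exact h2
    obtain ⟨F, hF⟩ : ∃ F : (ZMod d)ˣ → ℤ,
        F = fun u : (ZMod d)ˣ => od x (iota R (u : ZMod d)) := ⟨_, rfl⟩
    have hFodd : ∀ u, F (-u) = - F u := by
      intro u; rw [hF]; simp only; rw [Units.val_neg, iota_neg hR, od_neg]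
    obtain ⟨u0, hu0⟩ := exists_unit hR hd.symm
    have hFne : F u0 ≠ 0 := by rw [hF]; simp only; rw [hu0]; exact ha0'
    have hNpos : 0 < ∑ u, |F u| :=
      sum_pos' (fun _ _ => abs_nonneg _) ⟨u0, mem_univ _, abs_pos.mpr hFne⟩
    -- the norm
    have hsum : ∑ u, |F u| ≤ 16 := by
      have h1 := hw d hdpos hb0
      have h2 : ∑ a ∈ univ.filter (fun a : ZMod m => addOrderOf a = d),
          wt d (addOrderOf a) * |od x a| ≤ ∑ a, wt d (addOrderOf a) * |od x a| :=
        sum_le_sum_of_subset_of_nonneg (filter_subset _ _)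
          (fun a _ _ => mul_nonneg (wt_nonneg _ _) (abs_nonneg _))
      rw [sum_order hR] at h2
      have h3 : ∑ u : (ZMod d)ˣ, wt d (addOrderOf (iota R (u : ZMod d) : ZMod m)) *
          |od x (iota R (u : ZMod d))| = 6 * ∑ u, |F u| := by
        rw [mul_sum]
        refine sum_congr rfl fun u _ => ?_
        rw [addOrderOf_iota_unit hR, wt_self hdpos, hF]
      rw [h3] at h2
      omega
    obtain ⟨p, hp, hp11, hpd⟩ := exists_big hdodd hb0
    have hLB := lb_T hdodd hFodd hsum (fun L hL u => by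
      rw [hF]; exact top_LB' hR hx htop hL u) (fun q hq hq11 hdq => nineteen hb0 hq hq11 hdq)
    obtain ⟨F3, F5, F7, hD⟩ := exists_dec357 hdodd hFodd hsum hLB hp hp11 hpd
    obtain ⟨y, A3, A5, A7, h1, e3, e5, e7, h2⟩ := move_three hR x (F3 := F3) (F5 := F5) (F7 := F7)
      (fun u => by have := hD.add u; rw [hF] at this; exact this) hD.inv3 hD.odd3 hD.zero3
      hD.inv5 hD.odd5 hD.zero5 hD.inv7 hD.odd7 hD.zero7
    obtain ⟨⟨n3, n5, n7⟩, k3, k57, k9⟩ := hD.ineq A3 A5 A7 e3 e5 e7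
    have hNF : ∑ u : (ZMod d)ˣ, |od x (iota R (u : ZMod d))| = ∑ u, |F u| := by rw [hF]
    rw [← h1 Q c hc]
    refine ih (Phi1 y).toNat ?_ y rfl (rel_of_eq hx h1) ?_
    · rw [← hn]
      have h3 := h2 (fun n => (n : ℤ)) (fun n => by positivity)
      rw [hNF] at h3
      have hb : ∀ ℓ : ℕ, (ℓ : ℤ) * om1 (fun n => (n : ℤ)) d ℓ ≤ d := by
        intro ℓ
        unfold om1
        split_ifs with h4
        · have : ℓ * (d / ℓ) ≤ d := Nat.mul_div_le d ℓ
          show (ℓ : ℤ) * ((d / ℓ : ℕ) : ℤ) ≤ d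
          exact_mod_cast this
        · rw [mul_zero]; positivity
      have c3 := mul_le_mul_of_nonneg_right (hb 3) n3
      have c5 := mul_le_mul_of_nonneg_right (hb 5) n5
      have c7 := mul_le_mul_of_nonneg_right (hb 7) n7
      have l5 : cc d 5 * A5 ≤ ∑ u, |F u| := by
        by_cases h9 : 9 ∣ d
        · have := k9 h9; linarith
        · have := (k57 h9).1; linarith
      have l7 : cc d 7 * A7 ≤ ∑ u, |F u| := by
        by_cases h9 : 9 ∣ d
        · have := k9 h9; linarith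
        · have := (k57 h9).2.1; linarith
      have hd0 : (0 : ℤ) < d := by exact_mod_cast hdpos
      have b3 := mul_le_mul_of_nonneg_left k3 hd0.le
      have b5 := mul_le_mul_of_nonneg_left l5 hd0.le
      have b7 := mul_le_mul_of_nonneg_left l7 hd0.le
      have hdN : 0 < (d : ℤ) * ∑ u, |F u| := mul_pos hd0 hNpos
      push_cast at c3 c5 c7
      have h4 : Phi1 y < Phi1 x := by
        unfold Phi1
        linarith
      have := Phi1_nonneg y
      omega
    · intro t ht hbt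
      have h3 := h2 (wt t) (wt_nonneg t)
      rw [hNF] at h3
      have h4 := wt_step ht hdpos n3 n5 n7 k3 k57 k9
      have h5 := hw t ht hbt
      linarith

/-- from the number of letters -/
theorem kill_short (hm : m % 2 = 1) {Q : Type} [AddCommGroup Q] {c : ZMod m → Q} (hc : OddDist c)
    (hfin : ∀ x : ZMod m → ℤ, Rel x → (∀ a, od x a ≠ 0 → Hl (addOrderOf a)) →
      ∑ a, x a • c a = 0) {x : ZMod m → ℤ} (hx : Rel x) (h16 : ∑ a, |od x a| ≤ 16) :
    ∑ a, x a • c a = 0 := by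
  refine kill_ind hm hc hfin _ x rfl hx fun t _ _ => ?_
  calc ∑ a, wt t (addOrderOf a) * |od x a| ≤ ∑ a, 6 * |od x a| :=
        sum_le_sum fun a _ => mul_le_mul_of_nonneg_right (wt_le _ _) (abs_nonneg _)
    _ = 6 * ∑ a, |od x a| := by rw [mul_sum]
    _ ≤ 96 := by linarith

end Top

end Pool.Agent.Q59.SX
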