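import Pool.Agent.Q59.SX.TopT

/-!
# Decomposition in the directions 5 and 7
-/

namespace Pool.Agent.Q59.SX

open Finset Pool.Agent.Q59.FS

section Loc

variable {G : Type*} [CommGroup G] [Fintype G]
variable {K : Subgroup G} {P : List (Subgroup G)} {ν : ℤ} {F : G → ℤ}

/-- the gain, locally -/
theorem gain_local (hν : ∀ K' ∈ P, ν ≤ Nat.card K') (hLB : ∀ u, LB (K :: P) (TT u F))
    (hsm : ∀ u, 2 * nrm (K :: P) (TT u F) < Nat.card K * ν) (u : G) :
    nrm (K :: P) (TT u (fun v => F v - hh K P ν F v)) +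
      mu (Nat.card K) * nrm P (TT u (hh K P ν F)) ≤ nrm (K :: P) (TT u F) := by
  obtain ⟨κ₀, hκ₀, h0⟩ := ex_good hsm u
  have h1 := majority hν (hLB u) (hsm u) hκ₀ (by rw [slice_eq]; exact h0)
  have e1 : nrm (K :: P) (TT u (fun v => F v - hh K P ν F v)) =
      ∑ κ ∈ KF K, nrm P (fun v => TT u F (v * κ) - TT u F (v * κ₀)) := by
    rw [nrm_cons]
    refine sum_congr rfl fun κ hκ => nrm_congr fun v hv => ?_
    simp only [TT_apply]
    rw [← mul_assoc, hh_mul_K hν hLB hsm (mem_KF.mp hκ), hh_mul_jn hν hLB hκ₀ h0 hv, mul_assoc,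
      mul_assoc]
  have e2 : nrm P (TT u (hh K P ν F)) = nrm P (fun v => TT u F (v * κ₀)) := by
    refine nrm_congr fun v hv => ?_
    simp only [TT_apply]
    rw [hh_mul_jn hν hLB hκ₀ h0 hv, mul_assoc]
  rw [e1, e2]
  exact h1

omit [Fintype G] in
lemma nrm_inv [Finite G] {K : Subgroup G} {P : List (Subgroup G)} {F : G → ℤ}
    (hF : ∀ κ ∈ K, ∀ u, F (u * κ) = F u) (u : G) :
    nrm (K :: P) (TT u F) = Nat.card K * nrm P (TT u F) := by
  rw [nrm_cons_TT]
  have h : ∀ κ ∈ KF K, nrm P (TT (u * κ) F) = nrm P (TT u F) := by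
    intro κ hκ
    congr 1
    funext v
    simp only [TT_apply]
    rw [mul_right_comm, hF κ (mem_KF.mp hκ)]
  rw [sum_congr rfl h, sum_const, card_KF, nsmul_eq_mul]

omit [Fintype G] in
/-- invariance in the last direction -/
lemma nrm_inv2 [Finite G] {K K' : Subgroup G} {F : G → ℤ}
    (hF : ∀ κ ∈ K', ∀ u, F (u * κ) = F u) (u : G) :
    nrm [K, K'] (TT u F) = Nat.card K' * nrm [K] (TT u F) := by
  rw [nrm_cons_TT, nrm_cons_TT, mul_sum]
  exact sum_congr rfl fun κ _ => nrm_inv hF _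

end Loc

section Dec

variable {d : ℕ} [NeZero d]

lemma card_five (h5 : 5 ∣ d) : ((25 ∣ d ∧ Nat.card (KL d 5) = 5) ∨ (¬ 25 ∣ d ∧ Nat.card (KL d 5) = 4)) := by
  obtain ⟨e, he⟩ := h5
  rw [KL_eq_KK (by norm_num) he.symm]
  by_cases h : 5 ∣ e
  · left
    refine ⟨?_, card_KK_dvd (by norm_num) he.symm h⟩
    obtain ⟨f, hf⟩ := h
    exact ⟨f, by rw [he, hf]; ring⟩
  · right
    refine ⟨fun h25 => h ?_, card_KK_not_dvd (by norm_num) he.symm h⟩
    obtain ⟨f, hf⟩ := h25
    exact ⟨f, by omega⟩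

lemma card_seven (h7 : 7 ∣ d) : ((49 ∣ d ∧ Nat.card (KL d 7) = 7) ∨ (¬ 49 ∣ d ∧ Nat.card (KL d 7) = 6)) := by
  obtain ⟨e, he⟩ := h7
  rw [KL_eq_KK (by norm_num) he.symm]
  by_cases h : 7 ∣ e
  · left
    refine ⟨?_, card_KK_dvd (by norm_num) he.symm h⟩
    obtain ⟨f, hf⟩ := h
    exact ⟨f, by rw [he, hf]; ring⟩
  · right
    refine ⟨fun h25 => h ?_, card_KK_not_dvd (by norm_num) he.symm h⟩
    obtain ⟨f, hf⟩ := h25
    exact ⟨f, by omega⟩

/-- the number of new letters for one coset -/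
def c5 (d : ℕ) : ℤ := if 25 ∣ d then 1 else 2

/-- the number of new letters for one coset -/
def c7 (d : ℕ) : ℤ := if 49 ∣ d then 1 else 2

/-- the decomposition in the directions 5 and 7 -/
structure Dec57 (A h5 h7 : (ZMod d)ˣ → ℤ) : Prop where
  add : ∀ u, A u = h5 u + h7 u
  inv5 : ∀ κ ∈ KL d 5, ∀ u, h5 (u * κ) = h5 u
  inv7 : ∀ κ ∈ KL d 7, ∀ u, h7 (u * κ) = h7 u
  odd5 : ∀ u, h5 (-u) = - h5 u
  odd7 : ∀ u, h7 (-u) = - h7 u
  zero5 : ¬ 5 ∣ d → ∀ u, h5 u = 0
  zero7 : ¬ 7 ∣ d → ∀ u, h7 u = 0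
  ineq : ∀ A5 A7 : ℤ, Nat.card (KL d 5) * A5 = ∑ u, |h5 u| → Nat.card (KL d 7) * A7 = ∑ u, |h7 u| →
    2 * (c5 d * A5) ≤ ∑ u, |A u| ∧ 3 * (c7 d * A7) ≤ ∑ u, |A u| ∧
      2 * (c5 d * A5) + 2 * (c7 d * A7) ≤ ∑ u, |A u| ∧ (25 ∣ d → 3 * A5 ≤ ∑ u, |A u|)

lemma local_ineq {k5 k7 c c' μ a b n : ℤ} (h5 : (k5 = 5 ∧ c = 1 ∧ μ = 1) ∨ (k5 = 4 ∧ c = 2 ∧ μ = 2))
    (h7 : (k7 = 7 ∧ c' = 1) ∨ (k7 = 6 ∧ c' = 2)) (ha : 0 ≤ a) (hb : 0 ≤ b) (hn : n ≤ 8)
    (h1 : k7 * b + μ * a ≤ n) (h2 : b = 0 → n = k5 * a) :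
    2 * (c * a) ≤ n ∧ 3 * (c' * b) ≤ n ∧ 2 * (c * a) + 2 * (c' * b) ≤ n ∧ (k5 = 5 → 3 * a ≤ n) := by
  rcases h5 with ⟨rfl, rfl, rfl⟩ | ⟨rfl, rfl, rfl⟩ <;> rcases h7 with ⟨rfl, rfl⟩ | ⟨rfl, rfl⟩ <;>
    refine ⟨?_, ?_, ?_, ?_⟩ <;> omega

theorem exists_dec57 {A : (ZMod d)ˣ → ℤ}
    (hLB : ∀ u, LB ((T57 d).map (KL d)) (TT u A))
    (h8 : ∀ u, nrm ((T57 d).map (KL d)) (TT u A) ≤ 8) (hodd : ∀ u, A (-u) = - A u) :
    ∃ h5 h7 : (ZMod d)ˣ → ℤ, Dec57 A h5 h7 := by
  have hN0 : 0 ≤ ∑ u, |A u| := sum_nonneg fun _ _ => abs_nonneg _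
  have hc5 : 0 < (Nat.card (KL d 5) : ℤ) := by exact_mod_cast Nat.card_pos
  have hc7 : 0 < (Nat.card (KL d 7) : ℤ) := by exact_mod_cast Nat.card_pos
  by_cases h5d : 5 ∣ d <;> by_cases h7d : 7 ∣ d
  · -- both
    have hT : T57 d = [5, 7] := by unfold T57; simp [h5d, h7d]
    rw [hT] at hLB h8
    simp only [List.map_cons, List.map_nil] at hLB h8
    set K := KL d 5 with hK
    set K' := KL d 7 with hK'
    have hk5 := card_five (d := d) h5d
    have hk7 := card_seven (d := d) h7d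
    rw [← hK] at hk5
    rw [← hK'] at hk7
    have hν : ∀ K'' ∈ [K'], (6 : ℤ) ≤ Nat.card K'' := by
      intro K'' h
      rw [List.mem_singleton] at h
      rw [h]
      rcases hk7 with ⟨_, h⟩ | ⟨_, h⟩ <;> rw [h] <;> norm_num
    have hsm : ∀ u, 2 * nrm (K :: [K']) (TT u A) < Nat.card K * 6 := by
      intro u
      have := h8 u
      rcases hk5 with ⟨_, h⟩ | ⟨_, h⟩ <;> rw [h] <;> push_cast <;> omega
    set h5 : (ZMod d)ˣ → ℤ := hh K [K'] 6 A with hh5
    have i5 : ∀ κ ∈ K, ∀ u, h5 (u * κ) = h5 u := fun κ hκ u => hh_mul_K hν hLB hsm hκ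
    have i7 : ∀ κ ∈ K', ∀ u, A (u * κ) - h5 (u * κ) = A u - h5 u := by
      intro κ hκ u
      obtain ⟨κ₀, hκ₀, h0⟩ := ex_good hsm u
      have h1 := hLB u 1 K.one_mem κ₀ hκ₀ κ hκ 1 K'.one_mem
      have h2 : h5 (u * κ) = A (u * κ * κ₀) := hh_mul_jn hν hLB hκ₀ h0
        (show κ ∈ jn [K'] from (le_sup_left : K' ≤ K' ⊔ jn []) hκ)
      have h3 : h5 (u * 1) = A (u * 1 * κ₀) := hh_mul_jn hν hLB hκ₀ h0 (Subgroup.one_mem _)
      rw [mul_one] at h3
      have h4 : (TT u A (1 * κ * 1) - TT u A (1 * κ * κ₀)) -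
        (TT u A (1 * 1 * 1) - TT u A (1 * 1 * κ₀)) = 0 := h1
      simp only [TT_apply, one_mul, mul_one] at h4
      rw [h2, h3, mul_assoc]
      linarith
    have o5 : ∀ u, h5 (-u) = - h5 u := by
      intro u
      have := hh_odd hν hLB hsm (c := -1) (fun u => by rw [neg_one_mul, hodd]) u
      rw [neg_one_mul] at this
      exact this
    refine ⟨h5, fun u => A u - h5 u, ?_, i5, i7, o5, ?_, fun h => absurd h5d h,
      fun h => absurd h7d h, ?_⟩
    · intro u; ring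
    · intro u
      rw [hodd, o5]; ring
    · intro A5 A7 hA5 hA7
      set h7 : (ZMod d)ˣ → ℤ := fun u => A u - h5 u with hh7
      -- the local quantities
      have key : ∀ u, 2 * (c5 d * nrm [K'] (TT u h5)) ≤ nrm [K, K'] (TT u A) ∧
          3 * (c7 d * nrm [K] (TT u h7)) ≤ nrm [K, K'] (TT u A) ∧
          2 * (c5 d * nrm [K'] (TT u h5)) + 2 * (c7 d * nrm [K] (TT u h7)) ≤
            nrm [K, K'] (TT u A) ∧
          ((Nat.card K : ℤ) = 5 → 3 * nrm [K'] (TT u h5) ≤ nrm [K, K'] (TT u A)) := by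
        intro u
        refine local_ineq (k7 := (Nat.card K' : ℤ)) (μ := mu (Nat.card K)) ?_ ?_
          (nrm_nonneg _ _) (nrm_nonneg _ _) (h8 u) ?_ ?_
        · unfold c5
          rcases hk5 with ⟨h, h'⟩ | ⟨h, h'⟩
          · left
            rw [h', if_pos h]
            exact ⟨by norm_num, rfl, by unfold mu; decide⟩
          · right
            rw [h', if_neg h]
            exact ⟨by norm_num, rfl, by unfold mu; decide⟩
        · unfold c7
          rcases hk7 with ⟨h, h'⟩ | ⟨h, h'⟩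
          · left
            rw [h', if_pos h]
            exact ⟨by norm_num, rfl⟩
          · right
            rw [h', if_neg h]
            exact ⟨by norm_num, rfl⟩
        · have h1 := gain_local hν hLB hsm u
          have h2 : nrm (K :: [K']) (TT u (fun v => A v - hh K [K'] 6 A v)) =
              Nat.card K' * nrm [K] (TT u h7) := nrm_inv2 i7 u
          rw [h2] at h1
          exact h1
        · intro hb
          have h1 : ∀ κ ∈ K, h7 (u * κ) = 0 := by
            intro κ hκ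
            have h2 := (nrm_eq_zero.mp hb).forall κ ((le_sup_left : K ≤ K ⊔ jn []) hκ)
            exact h2
          have h2 : nrm [K, K'] (TT u A) = nrm [K, K'] (TT u h5) := by
            refine nrm_congr fun v hv => ?_
            obtain ⟨κ, hκ, w, hw, rfl⟩ := Subgroup.mem_sup.mp hv
            obtain ⟨κ', hκ', w', hw', rfl⟩ := Subgroup.mem_sup.mp hw
            have h3 : w' = 1 := hw'
            subst h3
            simp only [TT_apply, mul_one]
            have h4 := i7 κ' hκ' (u * κ)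
            have h5' := h1 κ hκ
            rw [← mul_assoc]
            simp only [hh7] at h5'
            linarith
          rw [h2]
          exact nrm_inv i5 u
      have hp : pc [K, K'] = Nat.card K * Nat.card K' := by
        change (Nat.card K : ℤ) * (Nat.card K' * 1) = _
        rw [mul_one]
      have hp1 : pc [K] = Nat.card K := mul_one _
      have hp2 : pc [K'] = Nat.card K' := mul_one _
      have s0 : ∑ u, nrm [K, K'] (TT u A) = Nat.card K * Nat.card K' * ∑ u, |A u| := by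
        rw [sum_nrm, hp]
      have s5 : ∑ u, nrm [K'] (TT u h5) = Nat.card K' * (Nat.card K * A5) := by
        rw [sum_nrm, hp2, hA5]
      have s7 : ∑ u, nrm [K] (TT u h7) = Nat.card K * (Nat.card K' * A7) := by
        rw [sum_nrm, hp1, hA7]
      have hpos : (0 : ℤ) < Nat.card K * Nat.card K' := mul_pos hc5 hc7
      refine ⟨?_, ?_, ?_, ?_⟩
      · have h1 := sum_le_sum fun u (_ : u ∈ univ) => (key u).1
        rw [← mul_sum, ← mul_sum, s0, s5] at h1
        refine le_of_mul_le_mul_left ?_ hpos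
        linarith
      · have h1 := sum_le_sum fun u (_ : u ∈ univ) => (key u).2.1
        rw [← mul_sum, ← mul_sum, s0, s7] at h1
        refine le_of_mul_le_mul_left ?_ hpos
        linarith
      · have h1 := sum_le_sum fun u (_ : u ∈ univ) => (key u).2.2.1
        rw [sum_add_distrib, ← mul_sum, ← mul_sum, ← mul_sum, ← mul_sum, s0, s5, s7] at h1
        refine le_of_mul_le_mul_left ?_ hpos
        linarith
      · intro h25
        have hk : (Nat.card K : ℤ) = 5 := by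
          rcases hk5 with ⟨_, h⟩ | ⟨h, _⟩
          · rw [h]; norm_num
          · exact absurd h25 h
        have h1 := sum_le_sum fun u (_ : u ∈ univ) => (key u).2.2.2 hk
        rw [← mul_sum, s0, s5] at h1
        refine le_of_mul_le_mul_left ?_ hpos
        linarith
  · -- only 5
    have hT : T57 d = [5] := by unfold T57; simp [h5d, h7d]
    rw [hT] at hLB
    have i5 : ∀ κ ∈ KL d 5, ∀ u, A (u * κ) = A u := by
      intro κ hκ u
      have h1 : TT u A (1 * κ) - TT u A (1 * 1) = 0 := hLB u κ hκ 1 (Subgroup.one_mem _)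
      simp only [TT_apply, one_mul, mul_one] at h1
      exact sub_eq_zero.mp h1
    refine ⟨A, fun _ => 0, fun u => by ring, i5, fun _ _ _ => rfl, hodd, fun _ => by ring,
      fun h => absurd h5d h, fun _ _ => rfl, ?_⟩
    intro A5 A7 hA5 hA7
    have hA7' : A7 = 0 := by
      simp only [abs_zero, sum_const_zero, mul_eq_zero] at hA7
      exact hA7.resolve_left hc7.ne'
    have hA50 : 0 ≤ A5 := by
      by_contra hcon
      push Not at hcon
      have := mul_neg_of_pos_of_neg hc5 hcon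
      omega
    rw [← hA5, hA7']
    unfold c5
    rcases card_five (d := d) h5d with ⟨h, h'⟩ | ⟨h, h'⟩
    · rw [h', if_pos h]; push_cast; refine ⟨?_, ?_, ?_, ?_⟩ <;> intros <;> omega
    · rw [h', if_neg h]; push_cast; refine ⟨?_, ?_, ?_, ?_⟩ <;> intros <;> omega
  · -- only 7
    have hT : T57 d = [7] := by unfold T57; simp [h5d, h7d]
    rw [hT] at hLB
    have i7 : ∀ κ ∈ KL d 7, ∀ u, A (u * κ) = A u := by
      intro κ hκ u
      have h1 : TT u A (1 * κ) - TT u A (1 * 1) = 0 := hLB u κ hκ 1 (Subgroup.one_mem _)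
      simp only [TT_apply, one_mul, mul_one] at h1
      exact sub_eq_zero.mp h1
    refine ⟨fun _ => 0, A, fun u => by ring, fun _ _ _ => rfl, i7, fun _ => by ring, hodd,
      fun _ _ => rfl, fun h => absurd h7d h, ?_⟩
    intro A5 A7 hA5 hA7
    have hA5' : A5 = 0 := by
      simp only [abs_zero, sum_const_zero, mul_eq_zero] at hA5
      exact hA5.resolve_left hc5.ne'
    have hA70 : 0 ≤ A7 := by
      by_contra hcon
      push Not at hcon
      have := mul_neg_of_pos_of_neg hc7 hcon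
      omega
    rw [← hA7, hA5']
    unfold c7
    rcases card_seven (d := d) h7d with ⟨h, h'⟩ | ⟨h, h'⟩
    · rw [h', if_pos h]; push_cast; refine ⟨?_, ?_, ?_, ?_⟩ <;> intros <;> omega
    · rw [h', if_neg h]; push_cast; refine ⟨?_, ?_, ?_, ?_⟩ <;> intros <;> omega
  · have hT : T57 d = [] := by unfold T57; simp [h5d, h7d]
    rw [hT] at hLB
    have hA : ∀ u, A u = 0 := by
      intro u
      have h1 : TT u A 1 = 0 := hLB u
      rwa [TT_apply, mul_one] at h1
    refine ⟨fun _ => 0, fun _ => 0, fun u => by rw [hA]; ring, fun _ _ _ => rfl, fun _ _ _ => rfl,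
      fun _ => by ring, fun _ => by ring, fun _ _ => rfl, fun _ _ => rfl, ?_⟩
    intro A5 A7 hA5 hA7
    have hA7' : A7 = 0 := by
      simp only [abs_zero, sum_const_zero, mul_eq_zero] at hA7
      exact hA7.resolve_left hc7.ne'
    have hA5' : A5 = 0 := by
      simp only [abs_zero, sum_const_zero, mul_eq_zero] at hA5
      exact hA5.resolve_left hc5.ne'
    rw [hA5', hA7']
    refine ⟨?_, ?_, ?_, ?_⟩ <;> intros <;> linarith

end Dec

end Pool.Agent.Q59.SX
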