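import Pool.Agent.Q59.SX.Last

/-!
# Short relations of odd level
-/

namespace Pool.Agent.Q59.SX

open Finset Pool.Agent.H916R2 Pool.Agent.Q59.FS

lemma exists_smooth {m : ℕ} (hm : m ≠ 0) :
    ∃ m1 m2 : ℕ, m1 * m2 = m ∧ Sm m1 ∧ ¬ 3 ∣ m2 ∧ ¬ 5 ∣ m2 ∧ ¬ 7 ∣ m2 := by
  obtain ⟨a, u, hu, e1⟩ := Nat.exists_eq_pow_mul_and_not_dvd hm 3 (by norm_num)
  have hu0 : u ≠ 0 := by rintro rfl; exact hu (dvd_zero _)
  obtain ⟨b, v, hv, e2⟩ := Nat.exists_eq_pow_mul_and_not_dvd hu0 5 (by norm_num)
  have hv0 : v ≠ 0 := by rintro rfl; exact hv (dvd_zero _)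
  obtain ⟨c, w, hw, e3⟩ := Nat.exists_eq_pow_mul_and_not_dvd hv0 7 (by norm_num)
  refine ⟨3 ^ a * 5 ^ b * 7 ^ c, w, by rw [e1, e2, e3]; ring, ?_, ?_, ?_, hw⟩
  · intro p hp hpd
    rcases hp.dvd_mul.mp hpd with h | h
    · rcases hp.dvd_mul.mp h with h | h
      · left
        exact (Nat.prime_dvd_prime_iff_eq hp Nat.prime_three).mp (hp.dvd_of_dvd_pow h)
      · right; left
        exact (Nat.prime_dvd_prime_iff_eq hp Nat.prime_five).mp (hp.dvd_of_dvd_pow h)
    · right; right
      exact (Nat.prime_dvd_prime_iff_eq hp (by norm_num)).mp (hp.dvd_of_dvd_pow h)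
  · intro h
    exact hu (by rw [e2, e3]; exact Dvd.dvd.mul_left (Dvd.dvd.mul_left h _) _)
  · intro h
    exact hv (by rw [e3]; exact Dvd.dvd.mul_left h _)

lemma Sm.dvd {n m1 m2 : ℕ} (hn : Sm n) (h3 : ¬ 3 ∣ m2) (h5 : ¬ 5 ∣ m2) (h7 : ¬ 7 ∣ m2)
    (h : n ∣ m1 * m2) : n ∣ m1 := by
  refine Nat.Coprime.dvd_of_dvd_mul_right ?_ h
  refine Nat.Coprime.symm (Nat.coprime_of_dvd fun p hp hp2 hpn => ?_)
  rcases hn p hp hpn with rfl | rfl | rfl
  · exact h3 hp2
  · exact h5 hp2
  · exact h7 hp2

/-- an order which is harmless without being a product of powers of 3, 5, 7 -/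
lemma not_Sm {n q : ℕ} (hq : q.Prime) (h : ¬ Sm n) (hn : n ∣ 3 * q) : q ∣ n := by
  unfold Sm at h
  push Not at h
  obtain ⟨p, hp, hpn, h3, _, _⟩ := h
  rcases hp.dvd_mul.mp (hpn.trans hn) with h' | h'
  · exact absurd ((Nat.prime_dvd_prime_iff_eq hp Nat.prime_three).mp h') h3
  · rw [← (Nat.prime_dvd_prime_iff_eq hp hq).mp h']
    exact hpn

/-- The relations of the harmless levels are killed. -/
def Known {m : ℕ} {Q : Type} [AddCommGroup Q] (c : ZMod m → Q) : Prop :=
  ∀ (k M : ℕ) [NeZero M], k * M = m → Hl M → ∀ y : ZMod M → ℤ, Rel y →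
    ∑ b, y b • c (iota k b) = 0

section Fin

variable {m : ℕ} [NeZero m]

lemma kill_level {Q : Type} [AddCommGroup Q] {c : ZMod m → Q} (hK : Known c) {k M : ℕ}
    (h : k * M = m) (hM : Hl M) {z : ZMod m → ℤ} (hz : ∀ a, z a ≠ 0 → addOrderOf a ∣ M)
    (hR : Rel z) : ∑ a, z a • c a = 0 := by
  have : NeZero M := ⟨by rintro rfl; rw [mul_zero] at h; exact NeZero.ne m h.symm⟩
  rw [sum_level h hz]
  exact hK k M h hM _ (rel_level h hz hR)

lemma dl_order (hm3 : 3 ∣ m) {a : ZMod m} (h : dl m a ≠ 0) : addOrderOf a ∣ 3 := by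
  unfold dl at h
  split_ifs at h with h1
  · rw [h1, addOrderOf_dvd_iff_nsmul_eq_zero, nsmul_eq_mul, ← Nat.cast_mul, Nat.mul_div_cancel' hm3,
      ZMod.natCast_self]
  · exact absurd rfl h

lemma rel_comb {z w : ZMod m → ℤ} (hz : Rel z) (hw : Rel w) : Rel (fun a => z a - w a) := by
  intro t
  have e : ∑ a, (z a - w a) * saw ((t : ZMod m) * a) =
      ∑ a, z a * saw ((t : ZMod m) * a) - ∑ a, w a * saw ((t : ZMod m) * a) := by
    rw [← sum_sub_distrib]
    exact sum_congr rfl fun a _ => by ring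
  change ∑ a, (z a - w a) * saw ((t : ZMod m) * a) = 0
  rw [e, hz t, hw t, sub_zero]

theorem kill_final (hm : m % 2 = 1) {Q : Type} [AddCommGroup Q] {c : ZMod m → Q}
    (hc : OddDist c) (hK : Known c) (x : ZMod m → ℤ) (hx : Rel x)
    (hH : ∀ a, od x a ≠ 0 → Hl (addOrderOf a)) : ∑ a, x a • c a = 0 := by
  classical
  -- positive part
  have hodx : ∀ a, od x a = od (posP (od x)) a := fun a => by
    have : posP (od x) a - posP (od x) (-a) = od x a := posP_sub (od_neg x a)
    exact this.symm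
  have hkill : ∀ (Q : Type) [AddCommGroup Q] (c : ZMod m → Q), OddDist c →
      ∑ a, posP (od x) a • c a = ∑ a, x a • c a := fun Q _ c hc => (od_kill hodx hc).symm
  rw [← hkill Q c hc]
  have hx' : Rel (posP (od x)) := rel_of_eq hx hkill
  obtain ⟨x', hx'e⟩ : ∃ x' : ZMod m → ℤ, x' = posP (od x) := ⟨_, rfl⟩
  rw [← hx'e] at hx' ⊢
  have hH' : ∀ a, x' a ≠ 0 → Hl (addOrderOf a) := by
    intro a ha
    apply hH
    intro h0
    apply ha
    rw [hx'e]
    unfold posP
    rw [h0]
    rfl
  -- the parts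
  let P : ℕ → ZMod m → Prop := fun q a => ¬ Sm (addOrderOf a) ∧ addOrderOf a ∣ 3 * q
  let xq : ℕ → ZMod m → ℤ := fun q a => if P q a then x' a else 0
  let x0 : ZMod m → ℤ := fun a => if Sm (addOrderOf a) then x' a else 0
  have hPd : ∀ q, q.Prime → ∀ a, P q a → q ∣ addOrderOf a := fun q hq a h => not_Sm hq h.1 h.2
  have hnSm : ∀ q, q.Prime → 11 ≤ q → ∀ n, q ∣ n → ¬ Sm n := by
    intro q hq h11 n hqn h
    have := h q hq hqn
    omega
  have p11 : Nat.Prime 11 := by norm_num
  have p13 : Nat.Prime 13 := by norm_num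
  have p17 : Nat.Prime 17 := by norm_num
  -- a letter whose order is divisible by `q` is in the part of `q`
  have hpart : ∀ q, (q = 11 ∨ q = 13 ∨ q = 17) → ∀ a, x' a ≠ 0 → q ∣ addOrderOf a → P q a := by
    intro q hq a ha hqa
    have hqp : q.Prime := by rcases hq with rfl | rfl | rfl <;> norm_num
    have h1 := hnSm q hqp (by omega) _ hqa
    refine ⟨h1, ?_⟩
    rcases hH' a ha with h | h | h | h
    · exact absurd h h1
    · have h2 := hqa.trans h
      rcases hq with rfl | rfl | rfl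
      · exact h
      · exact absurd h2 (by norm_num)
      · exact absurd h2 (by norm_num)
    · have h2 := hqa.trans h
      rcases hq with rfl | rfl | rfl
      · exact absurd h2 (by norm_num)
      · exact h
      · exact absurd h2 (by norm_num)
    · have h2 := hqa.trans h
      rcases hq with rfl | rfl | rfl
      · exact absurd h2 (by norm_num)
      · exact absurd h2 (by norm_num)
      · exact h
  have hex : ∀ q, (q = 11 ∨ q = 13 ∨ q = 17) →
      ∃ ζ : ℤ, (¬ 3 ∣ m → ζ = 0) ∧ Rel (fun a => xq q a + ζ * dl m a) := by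
    intro q hq
    have hqp : q.Prime := by rcases hq with rfl | rfl | rfl <;> norm_num
    refine corr hm hqp (by omega) hx' ?_ ?_
    · intro a ha
      simp only [xq] at ha
      split_ifs at ha with h
      · exact ⟨h.2, hPd q hqp a h⟩
      · exact absurd rfl ha
    · intro a ha hqa
      simp only [xq] at ha
      split_ifs at ha with h
      · exact ha (sub_self _)
      · rw [sub_zero] at ha
        exact h (hpart q hq a ha hqa)
  obtain ⟨ζ11, hζ11, hr11⟩ := hex 11 (Or.inl rfl)
  obtain ⟨ζ13, hζ13, hr13⟩ := hex 13 (Or.inr (Or.inl rfl))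
  obtain ⟨ζ17, hζ17, hr17⟩ := hex 17 (Or.inr (Or.inr rfl))
  -- decomposition
  have hdec : ∀ a, x' a = x0 a + xq 11 a + xq 13 a + xq 17 a := by
    intro a
    by_cases h0 : x' a = 0
    · simp only [x0, xq, h0, ite_self]; norm_num
    · have e : ∀ q q', (q = 11 ∨ q = 13 ∨ q = 17) → (q' = 11 ∨ q' = 13 ∨ q' = 17) → q ≠ q' →
          P q a → ¬ P q' a := by
        intro q q' hq hq' hne h h'
        have hqp : q.Prime := by rcases hq with rfl | rfl | rfl <;> norm_num
        have hq'p : q'.Prime := by rcases hq' with rfl | rfl | rfl <;> norm_num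
        have h1 := (hPd q hqp a h).trans h'.2
        rcases hqp.dvd_mul.mp h1 with h2 | h2
        · have := (Nat.prime_dvd_prime_iff_eq hqp Nat.prime_three).mp h2
          omega
        · exact hne ((Nat.prime_dvd_prime_iff_eq hqp hq'p).mp h2)
      by_cases hs : Sm (addOrderOf a)
      · have h1 : ∀ q, ¬ P q a := fun q h => h.1 hs
        simp only [x0, xq, if_pos hs, if_neg (h1 _)]; ring
      · have hor : P 11 a ∨ P 13 a ∨ P 17 a := by
          rcases hH' a h0 with h | h | h | h
          · exact absurd h hs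
          · exact Or.inl ⟨hs, h⟩
          · exact Or.inr (Or.inl ⟨hs, h⟩)
          · exact Or.inr (Or.inr ⟨hs, h⟩)
        rcases hor with h | h | h
        · have h1 := e 11 13 (by omega) (by omega) (by omega) h
          have h2 := e 11 17 (by omega) (by omega) (by omega) h
          simp only [x0, xq, if_neg hs, if_pos h, if_neg h1, if_neg h2]; ring
        · have h1 := e 13 11 (by omega) (by omega) (by omega) h
          have h2 := e 13 17 (by omega) (by omega) (by omega) h
          simp only [x0, xq, if_neg hs, if_pos h, if_neg h1, if_neg h2]; ring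
        · have h1 := e 17 11 (by omega) (by omega) (by omega) h
          have h2 := e 17 13 (by omega) (by omega) (by omega) h
          simp only [x0, xq, if_neg hs, if_pos h, if_neg h1, if_neg h2]; ring
  have hordm : ∀ a : ZMod m, addOrderOf a ∣ m := by
    intro a
    have := addOrderOf_dvd_card (x := a)
    rwa [ZMod.card] at this
  -- the parts of `q`
  have hkq : ∀ q, (q = 11 ∨ q = 13 ∨ q = 17) → ∀ ζ : ℤ, (¬ 3 ∣ m → ζ = 0) →
      Rel (fun a => xq q a + ζ * dl m a) → ∑ a, (xq q a + ζ * dl m a) • c a = 0 := by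
    intro q hq ζ hζ hr
    obtain ⟨k, hk⟩ : Nat.gcd m (3 * q) ∣ m := Nat.gcd_dvd_left _ _
    refine kill_level hK (k := k) (M := Nat.gcd m (3 * q)) (by rw [mul_comm]; exact hk.symm) ?_ ?_ hr
    · have h1 : Nat.gcd m (3 * q) ∣ 3 * q := Nat.gcd_dvd_right _ _
      rcases hq with rfl | rfl | rfl
      · exact Or.inr (Or.inl h1)
      · exact Or.inr (Or.inr (Or.inl h1))
      · exact Or.inr (Or.inr (Or.inr h1))
    · intro a ha
      refine Nat.dvd_gcd (hordm a) ?_
      by_cases h1 : xq q a = 0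
      · rw [h1, zero_add] at ha
        have hζ0 : ζ ≠ 0 := left_ne_zero_of_mul ha
        have h3m : 3 ∣ m := by
          by_contra h; exact hζ0 (hζ h)
        exact (dl_order h3m (right_ne_zero_of_mul ha)).trans (Dvd.intro _ rfl)
      · simp only [xq] at h1
        split_ifs at h1 with h2
        · exact h2.2
        · exact absurd rfl h1
  -- the smooth part
  obtain ⟨m1, m2, hm12, hs1, h3, h5, h7⟩ := exists_smooth (NeZero.ne m)
  have hk0 : ∑ a, (x0 a - (ζ11 + ζ13 + ζ17) * dl m a) • c a = 0 := by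
    refine kill_level hK (k := m2) (M := m1) (by rw [mul_comm]; exact hm12) (Or.inl hs1) ?_ ?_
    · intro a ha
      have hsm : Sm (addOrderOf a) := by
        by_cases h1 : x0 a = 0
        · rw [h1, zero_sub, neg_ne_zero] at ha
          have hζ0 : ζ11 + ζ13 + ζ17 ≠ 0 := left_ne_zero_of_mul ha
          have h3m : 3 ∣ m := by
            by_contra h
            apply hζ0
            rw [hζ11 h, hζ13 h, hζ17 h]; norm_num
          have h2 := dl_order h3m (right_ne_zero_of_mul ha)
          intro p hp hpd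
          left
          exact (Nat.prime_dvd_prime_iff_eq hp Nat.prime_three).mp (hpd.trans h2)
        · simp only [x0] at h1
          split_ifs at h1 with h2
          · exact h2
          · exact absurd rfl h1
      refine hsm.dvd h3 h5 h7 ?_
      rw [hm12]
      exact hordm a
    · have h1 := rel_comb (rel_comb (rel_comb hx' hr11) hr13) hr17
      have e : (fun a => x0 a - (ζ11 + ζ13 + ζ17) * dl m a) = fun a =>
          x' a - (xq 11 a + ζ11 * dl m a) - (xq 13 a + ζ13 * dl m a) -
            (xq 17 a + ζ17 * dl m a) := by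
        funext a
        rw [hdec a]; ring
      rw [e]
      exact h1
  have k11 := hkq 11 (by omega) ζ11 hζ11 hr11
  have k13 := hkq 13 (by omega) ζ13 hζ13 hr13
  have k17 := hkq 17 (by omega) ζ17 hζ17 hr17
  have hsum : ∑ a, x' a • c a = ∑ a, (x0 a - (ζ11 + ζ13 + ζ17) * dl m a) • c a +
      ∑ a, (xq 11 a + ζ11 * dl m a) • c a + ∑ a, (xq 13 a + ζ13 * dl m a) • c a +
      ∑ a, (xq 17 a + ζ17 * dl m a) • c a := by
    rw [← sum_add_distrib, ← sum_add_distrib, ← sum_add_distrib]
    refine sum_congr rfl fun a _ => ?_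
    rw [← add_smul, ← add_smul, ← add_smul]
    congr 1
    rw [hdec a]; ring
  rw [hsum, hk0, k11, k13, k17]
  simp

/-- **Short relations of odd level.** -/
theorem kill_short_odd (hm : m % 2 = 1) {Q : Type} [AddCommGroup Q] {c : ZMod m → Q}
    (hc : OddDist c) (hK : Known c) {x : ZMod m → ℤ} (hx : Rel x) (h16 : ∑ a, |od x a| ≤ 16) :
    ∑ a, x a • c a = 0 :=
  kill_short hm hc (kill_final hm hc hK) hx h16

end Fin

end Pool.Agent.Q59.SX
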