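import Pool.Agent.Q59.SX.Ind

/-!
# Harmless orders
-/

namespace Pool.Agent.Q59.SX

open Finset Pool.Agent.H916R2 Pool.Agent.Q59.FS

section Lvl

variable {m : ℕ} [NeZero m]

lemma iota_inj' {k M : ℕ} [NeZero M] (h : k * M = m) :
    Function.Injective (fun b : ZMod M => (iota k b : ZMod m)) := fun _ _ hab => iota_inj h hab

lemma exists_iota {k M : ℕ} [NeZero M] (h : k * M = m) {a : ZMod m} (ha : addOrderOf a ∣ M) :
    ∃ b : ZMod M, (iota k b : ZMod m) = a := by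
  have hM : 0 < M := Nat.pos_of_ne_zero (NeZero.ne M)
  have h1 : (M : ZMod m) * a = 0 := by
    rw [← nsmul_eq_mul]
    exact addOrderOf_dvd_iff_nsmul_eq_zero.mp ha
  have h2 : m ∣ M * a.val := by
    rw [← ZMod.natCast_eq_zero_iff]
    push_cast
    rw [ZMod.natCast_zmod_val]
    exact h1
  have h3 : M * k ∣ M * a.val := (dvd_of_eq (by rw [mul_comm]; exact h)).trans h2
  obtain ⟨b, hb⟩ := Nat.dvd_of_mul_dvd_mul_left hM h3
  refine ⟨(b : ZMod M), ?_⟩
  rw [iota_natCast h, ← hb, ZMod.natCast_zmod_val]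

lemma sum_level {k M : ℕ} [NeZero M] (h : k * M = m) {z : ZMod m → ℤ}
    (hz : ∀ a, z a ≠ 0 → addOrderOf a ∣ M) {Q : Type*} [AddCommGroup Q] (f : ZMod m → Q) :
    ∑ a, z a • f a = ∑ b : ZMod M, z (iota k b) • f (iota k b) := by
  symm
  refine sum_bij_ne_zero (fun b _ _ => (iota k b : ZMod m)) (fun _ _ _ => mem_univ _)
    (fun _ _ _ _ _ _ hab => iota_inj h hab) ?_ (fun _ _ _ => rfl)
  intro a _ ha
  have h1 : z a ≠ 0 := fun h0 => ha (by rw [h0, zero_smul])
  obtain ⟨b, rfl⟩ := exists_iota h (hz a h1)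
  exact ⟨b, mem_univ _, ha, rfl⟩

lemma rel_level {k M : ℕ} [NeZero M] (h : k * M = m) {z : ZMod m → ℤ}
    (hz : ∀ a, z a ≠ 0 → addOrderOf a ∣ M) (hR : Rel z) :
    Rel (fun b : ZMod M => z (iota k b)) := by
  intro t
  obtain ⟨t', rfl⟩ := ZMod.unitsMap_surjective (Dvd.intro_left k h : M ∣ m) t
  have h1 := hR t'
  have h2 := sum_level h hz (fun a => saw ((t' : ZMod m) * a))
  simp only [smul_eq_mul] at h2
  rw [h1] at h2
  have hk : (k : ℤ) ≠ 0 := by
    have : k ≠ 0 := by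
      rintro rfl
      rw [zero_mul] at h
      exact NeZero.ne m h.symm
    exact_mod_cast this
  have h3 : (k : ℤ) * ∑ b : ZMod M, z (iota k b) *
      saw (((ZMod.unitsMap (Dvd.intro_left k h : M ∣ m) t' : (ZMod M)ˣ) : ZMod M) * b) = 0 := by
    rw [h2, mul_sum]
    refine sum_congr rfl fun b _ => ?_
    rw [unit_iota h, saw_iota h]
    ring
  exact (mul_eq_zero.mp h3).resolve_left hk

end Lvl

section Sep

variable {m : ℕ} [NeZero m]

/-- the sums -/
def Sg (z : ZMod m → ℤ) (T : ℕ) : ℤ := ∑ a, z a * saw ((T : ZMod m) * a)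

lemma rel_iff_Sg {z : ZMod m → ℤ} : Rel z ↔ ∀ T : ℕ, T.Coprime m → Sg z T = 0 := by
  constructor
  · intro h T hT
    have := h (ZMod.unitOfCoprime T hT)
    rwa [ZMod.coe_unitOfCoprime] at this
  · intro h t
    have := h (t : ZMod m).val (ZMod.val_coe_unit_coprime t)
    unfold Sg at this
    rwa [ZMod.natCast_zmod_val] at this

lemma mul_eq_of_modEq {a : ZMod m} {n T T' : ℕ} (h : addOrderOf a ∣ n) (hT : T ≡ T' [MOD n]) :
    (T : ZMod m) * a = (T' : ZMod m) * a := by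
  rw [← nsmul_eq_mul, ← nsmul_eq_mul]
  exact ((isOfFinAddOrder_of_finite a).nsmul_eq_nsmul_iff_modEq).mpr (hT.of_dvd h)

lemma Sg_congr {z : ZMod m → ℤ} {n T T' : ℕ} (hz : ∀ a, z a ≠ 0 → addOrderOf a ∣ n)
    (hT : T ≡ T' [MOD n]) : Sg z T = Sg z T' := by
  unfold Sg
  refine sum_congr rfl fun a _ => ?_
  by_cases h : z a = 0
  · rw [h, zero_mul, zero_mul]
  · rw [mul_eq_of_modEq (hz a h) hT]

lemma Sg_sub (z w : ZMod m → ℤ) (T : ℕ) : Sg (fun a => z a - w a) T = Sg z T - Sg w T := by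
  unfold Sg
  rw [← sum_sub_distrib]
  exact sum_congr rfl fun a _ => by ring

lemma Sg_neg (z : ZMod m → ℤ) (T : ℕ) : Sg z ((m - 1) * T) = - Sg z T := by
  have hm : 1 ≤ m := Nat.one_le_iff_ne_zero.mpr (NeZero.ne m)
  have e : (((m - 1) * T : ℕ) : ZMod m) = - (T : ZMod m) := by
    push_cast [Nat.cast_sub hm]
    rw [ZMod.natCast_self]
    ring
  unfold Sg
  rw [← sum_neg_distrib]
  refine sum_congr rfl fun a _ => ?_
  rw [e, neg_mul, saw_neg]
  ring

lemma pred_coprime (hm : m ≠ 0) : (m - 1).Coprime m := by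
  have : (m - 1).Coprime (m - 1 + 1) := by
    rw [Nat.coprime_self_add_right]
    exact Nat.coprime_one_right _
  rwa [Nat.sub_add_cancel (Nat.one_le_iff_ne_zero.mpr hm)] at this

omit [NeZero m] in
lemma crt {q v m' T T' : ℕ} (hq : q.Prime) (h : q ^ v * m' = m) (hqm : ¬ q ∣ m')
    (hT : T.Coprime m) (hT' : T'.Coprime m) :
    ∃ U : ℕ, U.Coprime m ∧ U ≡ T [MOD m'] ∧ U ≡ T' [MOD q ^ v] := by
  have hco : m'.Coprime (q ^ v) := by
    refine Nat.Coprime.pow_right v ?_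
    rw [Nat.coprime_comm]
    exact (Nat.Prime.coprime_iff_not_dvd hq).mpr hqm
  obtain ⟨U, h1, h2⟩ := Nat.chineseRemainder hco T T'
  refine ⟨U, ?_, h1, h2⟩
  rw [← h]
  refine Nat.Coprime.mul_right ?_ ?_
  · unfold Nat.Coprime
    rw [h2.gcd_eq]
    exact Nat.Coprime.coprime_dvd_right (Dvd.intro m' h) hT'
  · unfold Nat.Coprime
    rw [h1.gcd_eq]
    exact Nat.Coprime.coprime_dvd_right (Dvd.intro_left _ h) hT

/-- the delta function at `m / 3` -/
def dl (m : ℕ) (a : ZMod m) : ℤ := if a = ((m / 3 : ℕ) : ZMod m) then 1 else 0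

lemma Sg_dl (z : ZMod m → ℤ) (ζ : ℤ) (T : ℕ) : Sg (fun a => z a + ζ * dl m a) T =
    Sg z T + ζ * saw ((T : ZMod m) * ((m / 3 : ℕ) : ZMod m)) := by
  unfold Sg
  have h1 : ∀ a : ZMod m, (z a + ζ * dl m a) * saw ((T : ZMod m) * a) =
      z a * saw ((T : ZMod m) * a) +
        (if a = ((m / 3 : ℕ) : ZMod m) then ζ * saw ((T : ZMod m) * a) else 0) := by
    intro a
    unfold dl
    split_ifs <;> ring
  rw [sum_congr rfl fun a _ => h1 a, sum_add_distrib]
  congr 1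
  rw [sum_ite_eq' univ]
  simp

lemma saw_third {n : ℕ} (hmn : m = 3 * n) (T : ℕ) :
    (T % 3 = 1 → saw ((T : ZMod m) * ((m / 3 : ℕ) : ZMod m)) = -(n : ℤ)) ∧
      (T % 3 = 2 → saw ((T : ZMod m) * ((m / 3 : ℕ) : ZMod m)) = (n : ℤ)) := by
  have hm0 := NeZero.ne m
  have hn : 0 < n := by omega
  have e1 : m / 3 = n := by omega
  have hord : addOrderOf ((n : ℕ) : ZMod m) ∣ 3 := by
    rw [addOrderOf_dvd_iff_nsmul_eq_zero, nsmul_eq_mul]
    have : ((3 : ℕ) : ZMod m) * ((n : ℕ) : ZMod m) = ((3 * n : ℕ) : ZMod m) := by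
      push_cast; ring
    rw [this, ← hmn, ZMod.natCast_self]
  rw [e1]
  constructor
  · intro hT
    have h1 : (T : ZMod m) * ((n : ℕ) : ZMod m) = ((1 : ℕ) : ZMod m) * ((n : ℕ) : ZMod m) :=
      mul_eq_of_modEq hord (by unfold Nat.ModEq; omega)
    rw [h1, Nat.cast_one, one_mul, saw_natCast (by omega), if_neg (by omega), hmn]
    push_cast; ring
  · intro hT
    have h1 : (T : ZMod m) * ((n : ℕ) : ZMod m) = ((2 : ℕ) : ZMod m) * ((n : ℕ) : ZMod m) :=
      mul_eq_of_modEq hord (by unfold Nat.ModEq; omega)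
    have h2 : ((2 : ℕ) : ZMod m) * ((n : ℕ) : ZMod m) = ((2 * n : ℕ) : ZMod m) := by
      push_cast; ring
    rw [h1, h2, saw_natCast (by omega), if_neg (by omega), hmn]
    push_cast; ring

/-- the sawtooth modulo a divisor of `m` -/
lemma saw_mod {n : ℕ} (hn : n ∣ m) (T : ℕ) (a : ZMod m) :
    (n : ℤ) ∣ saw ((T : ZMod m) * a) - 2 * T * a.val := by
  have h1 : (m : ℤ) ∣ (((T : ZMod m) * a).val : ℤ) - T * a.val := by
    rw [← ZMod.intCast_zmod_eq_zero_iff_dvd]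
    push_cast
    rw [ZMod.natCast_zmod_val, ZMod.natCast_zmod_val]
    ring
  have hnm : (n : ℤ) ∣ m := by exact_mod_cast hn
  unfold saw
  split_ifs with h
  · rw [h] at h1
    have h2 : (m : ℤ) ∣ 0 - 2 * T * a.val := by
      have h3 := Dvd.dvd.mul_left h1 2
      have e : (2 : ℤ) * ((((0 : ZMod m).val : ℕ) : ℤ) - T * a.val) = 0 - 2 * T * a.val := by
        rw [ZMod.val_zero]; push_cast; ring
      rwa [e] at h3
    exact hnm.trans h2
  · have h2 : (m : ℤ) ∣ 2 * (((T : ZMod m) * a).val : ℤ) - m - 2 * T * a.val := by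
      have h3 := (Dvd.dvd.mul_left h1 2).sub (dvd_refl (m : ℤ))
      have e : (2 : ℤ) * ((((T : ZMod m) * a).val : ℤ) - T * a.val) - m =
        2 * (((T : ZMod m) * a).val : ℤ) - m - 2 * T * a.val := by ring
      rwa [e] at h3
    exact hnm.trans h2

theorem corr (hm : m % 2 = 1) {q : ℕ} (hq : q.Prime) (hq5 : 5 ≤ q) {x xq : ZMod m → ℤ}
    (hx : Rel x) (h1 : ∀ a, xq a ≠ 0 → addOrderOf a ∣ 3 * q ∧ q ∣ addOrderOf a)
    (h2 : ∀ a, x a - xq a ≠ 0 → ¬ q ∣ addOrderOf a) :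
    ∃ ζ : ℤ, (¬ 3 ∣ m → ζ = 0) ∧ Rel (fun a => xq a + ζ * dl m a) := by
  have hm0 := NeZero.ne m
  by_cases hqm : q ∣ m
  swap
  · refine ⟨0, fun _ => rfl, ?_⟩
    have h3 : ∀ a, xq a = 0 := by
      intro a
      by_contra h
      apply hqm
      refine (h1 a h).2.trans ?_
      have := addOrderOf_dvd_card (x := a)
      rwa [ZMod.card] at this
    intro t
    apply sum_eq_zero
    intro a _
    change (xq a + 0 * dl m a) * _ = 0
    rw [h3]; ring
  have hordm : ∀ a : ZMod m, addOrderOf a ∣ m := by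
    intro a
    have := addOrderOf_dvd_card (x := a)
    rwa [ZMod.card] at this
  obtain ⟨v, m', hqm', hmv⟩ := Nat.exists_eq_pow_mul_and_not_dvd hm0 q hq.ne_one
  have hv : v ≠ 0 := by
    rintro rfl
    rw [pow_zero, one_mul] at hmv
    exact hqm' (hmv ▸ hqm)
  have hrel := rel_iff_Sg.mp hx
  have h3q : (3 : ℕ).Coprime q := (Nat.coprime_primes Nat.prime_three hq).mpr (by omega)
  have key : ∀ T T' : ℕ, T.Coprime m → T'.Coprime m → (3 ∣ m → T ≡ T' [MOD 3]) →
      Sg xq T = Sg xq T' := by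
    intro T T' hT hT' h3
    obtain ⟨U, hU, hU1, hU2⟩ := crt hq hmv.symm hqm' hT hT'
    have e1 : Sg (fun a => x a - xq a) U = Sg (fun a => x a - xq a) T := by
      refine Sg_congr (n := m') (fun a ha => ?_) hU1
      have h4 : (addOrderOf a).Coprime (q ^ v) := by
        refine Nat.Coprime.pow_right v ?_
        rw [Nat.coprime_comm]
        exact (Nat.Prime.coprime_iff_not_dvd hq).mpr (h2 a ha)
      refine Nat.Coprime.dvd_of_dvd_mul_left h4 ?_
      rw [← hmv]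
      exact hordm a
    rw [Sg_sub, Sg_sub, hrel U hU, hrel T hT] at e1
    have e2 : Sg xq U = Sg xq T' := by
      have hUq : U ≡ T' [MOD q] := hU2.of_dvd (dvd_pow_self q hv)
      by_cases h3m : 3 ∣ m
      · refine Sg_congr (n := 3 * q) (fun a ha => (h1 a ha).1) ?_
        rw [← Nat.modEq_and_modEq_iff_modEq_mul h3q]
        refine ⟨?_, hUq⟩
        have h3m' : 3 ∣ m' := by
          rw [hmv] at h3m
          refine (Nat.Coprime.dvd_of_dvd_mul_left ?_ h3m)
          exact Nat.Coprime.pow_right v h3q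
        exact (hU1.of_dvd h3m').trans (h3 h3m)
      · refine Sg_congr (n := q) (fun a ha => ?_) hUq
        refine Nat.Coprime.dvd_of_dvd_mul_left ?_ (h1 a ha).1
        rw [Nat.coprime_comm]
        exact (Nat.Prime.coprime_iff_not_dvd Nat.prime_three).mpr
          (fun h => h3m (h.trans (hordm a)))
    omega
  have hneg : ∀ T : ℕ, T.Coprime m → ((m - 1) * T).Coprime m := fun T hT =>
    Nat.Coprime.mul_left (pred_coprime hm0) hT
  by_cases h3m : 3 ∣ m
  swap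
  · refine ⟨0, fun _ => rfl, rel_iff_Sg.mpr fun T hT => ?_⟩
    rw [Sg_dl, zero_mul, add_zero]
    have h4 := key T ((m - 1) * T) hT (hneg T hT) (fun h => absurd h h3m)
    rw [Sg_neg] at h4
    omega
  obtain ⟨n, hn⟩ := h3m
  have hn0 : 0 < n := by omega
  -- `m = 3 q k`
  have hqn : q ∣ n := by
    rw [hn] at hqm
    exact (Nat.Coprime.dvd_of_dvd_mul_left h3q.symm hqm)
  obtain ⟨k, hk⟩ := hqn
  have hk0 : 0 < k := Nat.pos_of_ne_zero (by rintro rfl; omega)
  -- divisibility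
  set W : ℤ := ∑ a, xq a * (a.val : ℤ) with hW
  have hSW : ∀ T : ℕ, (n : ℤ) ∣ Sg xq T - 2 * T * W := by
    intro T
    have : Sg xq T - 2 * T * W =
        ∑ a : ZMod m, xq a * (saw ((T : ZMod m) * a) - 2 * T * a.val) := by
      unfold Sg
      rw [hW, mul_sum, ← sum_sub_distrib]
      exact sum_congr rfl fun a _ => by ring
    rw [this]
    refine dvd_sum fun a _ => Dvd.dvd.mul_left (saw_mod ?_ T a) _
    exact ⟨3, by rw [hn]; ring⟩
  have hWk : (k : ℤ) ∣ W := by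
    rw [hW]
    refine dvd_sum fun a _ => ?_
    by_cases ha : xq a = 0
    · rw [ha, zero_mul]; exact dvd_zero _
    · refine Dvd.dvd.mul_left ?_ _
      have h4 := (h1 a ha).1
      have h5 : m ∣ (3 * q) * a.val := by
        rw [← ZMod.natCast_eq_zero_iff, Nat.cast_mul, ZMod.natCast_zmod_val, ← nsmul_eq_mul]
        exact addOrderOf_dvd_iff_nsmul_eq_zero.mp h4
      have h6 : (3 * q) * k = m := by rw [hn, hk]; ring
      have h7 := Nat.dvd_of_mul_dvd_mul_left (by have := hq.pos; positivity : 0 < 3 * q)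
        ((dvd_of_eq h6).trans h5)
      exact_mod_cast h7
  obtain ⟨B, hB⟩ := hWk
  obtain ⟨U, hU, hU1, hU2⟩ := crt (T := 1) (T' := 2) hq hmv.symm hqm' (Nat.coprime_one_left m) (by
    rw [Nat.coprime_comm, Nat.coprime_two_right, Nat.odd_iff]; exact hm)
  have hUq : U ≡ 2 [MOD q] := hU2.of_dvd (dvd_pow_self q hv)
  have h3m : 3 ∣ m := ⟨n, hn⟩
  have h3m' : 3 ∣ m' := by
    rw [hmv] at h3m
    exact Nat.Coprime.dvd_of_dvd_mul_left (Nat.Coprime.pow_right v h3q) h3m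
  have hSU : Sg xq U = Sg xq 1 := key U 1 hU (Nat.coprime_one_left m) (fun _ => hU1.of_dvd h3m')
  have hdvd : (n : ℤ) ∣ 2 * W := by
    have h4 := hSW U
    have h5 := hSW 1
    rw [hSU] at h4
    have h6 : (n : ℤ) ∣ 2 * ((U : ℤ) - 1) * W := by
      have := h5.sub h4
      have e : Sg xq 1 - 2 * ((1 : ℕ) : ℤ) * W - (Sg xq 1 - 2 * U * W) = 2 * ((U : ℤ) - 1) * W := by
        push_cast; ring
      rwa [e] at this
    have hqU : (q : ℤ) ∣ (U : ℤ) - 2 := by
      have := (Nat.modEq_iff_dvd.mp hUq.symm)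
      exact_mod_cast this
    have hnk : (n : ℤ) = q * k := by rw [hk]; push_cast; ring
    rw [hnk, hB] at h6 ⊢
    have hk0' : (k : ℤ) ≠ 0 := by exact_mod_cast hk0.ne'
    have h7 : (q : ℤ) ∣ 2 * ((U : ℤ) - 1) * B := by
      refine (mul_dvd_mul_iff_right hk0').mp ?_
      have e : 2 * ((U : ℤ) - 1) * B * k = 2 * ((U : ℤ) - 1) * (k * B) := by ring
      rw [e]; exact h6
    have h8 : (q : ℤ) ∣ 2 * B := by
      obtain ⟨w, hw⟩ := hqU
      have e : 2 * ((U : ℤ) - 1) * B = 2 * B + q * (w * (2 * B)) := by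
        have : (U : ℤ) = 2 + q * w := by linarith
        rw [this]; ring
      rw [e] at h7
      exact (Int.dvd_add_left (Dvd.intro _ rfl)).mp h7
    have e : 2 * ((k : ℤ) * B) = 2 * B * k := by ring
    rw [e]
    exact mul_dvd_mul_right h8 _
  have hσ : (n : ℤ) ∣ Sg xq 1 := by
    have := (hSW 1).add hdvd
    have e : Sg xq 1 - 2 * ((1 : ℕ) : ℤ) * W + 2 * W = Sg xq 1 := by push_cast; ring
    rwa [e] at this
  obtain ⟨ζ, hζ⟩ := hσ
  refine ⟨ζ, fun h => absurd h3m h, rel_iff_Sg.mpr fun T hT => ?_⟩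
  rw [Sg_dl]
  have hT3 : T % 3 = 1 ∨ T % 3 = 2 := by
    have : T % 3 ≠ 0 := by
      intro h0
      have h4 : 3 ∣ T := Nat.dvd_of_mod_eq_zero h0
      have h5 := Nat.dvd_gcd h4 h3m
      rw [hT] at h5
      omega
    omega
  obtain ⟨s1, s2⟩ := saw_third hn T
  rcases hT3 with h | h
  · rw [s1 h, key T 1 hT (Nat.coprime_one_left m) (fun _ => by unfold Nat.ModEq; omega), hζ]
    ring
  · have h4 : T ≡ (m - 1) * 1 [MOD 3] := by
      unfold Nat.ModEq
      omega
    rw [s2 h, key T ((m - 1) * 1) hT (hneg 1 (Nat.coprime_one_left m)) (fun _ => h4), Sg_neg, hζ]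
    ring

end Sep

end Pool.Agent.Q59.SX
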