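import Pool.Agent.Q59.SX.Sel

/-!
# Moving functions down, with the values in the order concerned
-/

namespace Pool.Agent.Q59.SX

open Finset Pool.Agent.H916R2 Pool.Agent.Q59.FS

section Move

variable {m R d ℓ d' : ℕ} [NeZero m] [NeZero d] [NeZero d']

/-- **The move.** -/
theorem move2 (hR : R * d = m) (hℓ : ℓ.Prime) (h : ℓ * d' = d) (x : ZMod m → ℤ)
    {k : (ZMod d)ˣ → ℤ} (hK : ∀ κ ∈ KK h, ∀ u, k (u * κ) = k u) (hodd : ∀ u, k (-u) = - k u) :
    ∃ (y : ZMod m → ℤ) (A : ℤ),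
      (∀ (Q : Type) [AddCommGroup Q] (c : ZMod m → Q), OddDist c →
        ∑ a, y a • c a = ∑ a, x a • c a) ∧
      (Nat.card (KK h) * A = ∑ u, |k u|) ∧
      (∀ u : (ZMod d)ˣ, od y (iota R (u : ZMod d)) = od x (iota R (u : ZMod d)) - k u) ∧
      ∀ ω : ℕ → ℤ, (∀ n, 0 ≤ ω n) → ∑ a : ZMod m, ω (addOrderOf a) * |od y a| ≤
        ∑ a : ZMod m, ω (addOrderOf a) * |od x a| -
          ω d * (∑ u : (ZMod d)ˣ, |od x (iota R (u : ZMod d))| -
            ∑ u : (ZMod d)ˣ, |od x (iota R (u : ZMod d)) - k u|) +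
          ω d' * ((if ℓ ∣ d' then 1 else 2) * A) := by
  classical
  have hRℓ : R * ℓ * d' = m := by rw [mul_assoc, h, hR]
  set f := od x with hf
  set k' : (ZMod d')ˣ → ℤ := fun v => k (sec h v) with hk'
  set g1 : (ZMod d)ˣ → ZMod m := fun u => iota R (u : ZMod d) with hg1
  set g2 : (ZMod d')ˣ → ZMod m := fun v => iota (R * ℓ) (v : ZMod d') with hg2
  -- basic properties
  have hfneg : ∀ a, f (-a) = - f a := od_neg x
  have hk'odd : ∀ v, k' (-v) = - k' v := by
    intro v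
    simp only [hk']
    rw [← hodd]
    have h1 : (- sec h v)⁻¹ * sec h (-v) ∈ KK h := by
      rw [mem_KK, map_mul, map_inv, sec_spec]
      have h2 : ZMod.unitsMap (Dvd.intro_left ℓ h) (- sec h v) = -v := by
        apply Units.ext
        rw [unitsMap_coe, Units.val_neg, map_neg, ← unitsMap_coe, sec_spec, Units.val_neg]
      rw [h2, inv_mul_cancel]
    have h3 := hK _ h1 (- sec h v)
    rw [mul_inv_cancel_left] at h3
    exact h3
  have hg1neg : ∀ u, g1 (-u) = - g1 u := by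
    intro u; simp only [hg1]; rw [Units.val_neg, iota_neg hR]
  have hg2neg : ∀ u, g2 (-u) = - g2 u := by
    intro u; simp only [hg2]; rw [Units.val_neg, iota_neg hRℓ]
  have hg3neg : ∀ u, g3 R ℓ d' m (-u) = - g3 R ℓ d' m u := by
    intro u
    unfold g3
    split_ifs
    · rw [mul_neg, Units.val_neg, iota_neg hRℓ]
    · simp
  set T : ℤ := if ℓ.Coprime d' then 1 else 0 with hT
  set y : ZMod m → ℤ := fun a => posP f a - push g1 (posP k) a + push g2 (posP k') a -
    T * push (g3 R ℓ d' m) (posP k') a with hy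
  -- the odd part of `y`
  have hody : ∀ a, od y a = (f a - push g1 k a) + (push g2 k' a - T * push (g3 R ℓ d' m) k' a) := by
    intro a
    have e1 : posP f a - posP f (-a) = f a := posP_sub (hfneg a)
    have e2 := od_push g1 k (Equiv.neg _) hg1neg hodd a
    have e3 := od_push g2 k' (Equiv.neg _) hg2neg hk'odd a
    have e4 := od_push (g3 R ℓ d' m) k' (Equiv.neg _) hg3neg hk'odd a
    rw [← e1, ← e2, ← e3, ← e4]
    simp only [hy, od]
    ring
  have hp1 : ∀ u : (ZMod d)ˣ, push g1 k (iota R (u : ZMod d)) = k u := by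
    intro u
    unfold push
    rw [sum_eq_single u]
    · rw [if_pos rfl]
    · intro v _ hv
      rw [if_neg]
      intro h0
      exact hv (Units.ext (iota_inj hR h0))
    · intro h0; exact absurd (mem_univ _) h0
  have hdd : d' ≠ d := by
    intro h0
    rw [h0] at h
    have h1 : 0 < d := Nat.pos_of_ne_zero (NeZero.ne d)
    have h2 : ℓ = 1 := Nat.eq_of_mul_eq_mul_right h1 (by rw [h, one_mul])
    exact hℓ.one_lt.ne' h2
  have hp3 : ∀ u : (ZMod d)ˣ, push g2 k' (iota R (u : ZMod d)) = 0 := by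
    intro u
    unfold push
    apply sum_eq_zero
    intro v _
    rw [if_neg]
    intro h0
    apply hdd
    have h1 := congrArg addOrderOf h0
    rw [addOrderOf_iota_unit hR u] at h1
    simp only [hg2] at h1
    rw [addOrderOf_iota_unit hRℓ] at h1
    exact h1
  have hp4 : ∀ u : (ZMod d)ˣ, T * push (g3 R ℓ d' m) k' (iota R (u : ZMod d)) = 0 := by
    intro u
    rw [hT]
    split_ifs with hcop
    · rw [one_mul]
      unfold push
      apply sum_eq_zero
      intro v _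
      rw [if_neg]
      intro h0
      apply hdd
      have h1 := congrArg addOrderOf h0
      rw [addOrderOf_iota_unit hR u] at h1
      simp only [g3] at h1
      rw [dif_pos hcop, addOrderOf_iota_unit hRℓ] at h1
      exact h1
    · rw [zero_mul]
  refine ⟨y, ∑ v, |k' v|, ?_, ?_, fun u => ?_, ?_⟩
  · intro Q _ c hc
    have h1 : ∑ a, x a • c a = ∑ a, posP f a • c a := by
      refine od_kill (fun a => ?_) hc
      have e1 : posP f a - posP f (-a) = f a := posP_sub (hfneg a)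
      exact e1.symm
    have h2 : ∑ a, y a • c a = ∑ a, posP f a • c a - ∑ a, push g1 (posP k) a • c a +
        ∑ a, push g2 (posP k') a • c a - T • ∑ a, push (g3 R ℓ d' m) (posP k') a • c a := by
      simp only [hy, add_smul, sub_smul, mul_smul]
      rw [sum_sub_distrib, sum_add_distrib, sum_sub_distrib, smul_sum]
    rw [h2, h1, push_sum, push_sum, push_sum]
    have h3 := push_rel hR hℓ h hc (k := posP k) (by
      intro κ hκ u
      unfold posP
      rw [hK κ hκ])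
    have h4 : ∑ i, posP k i • c (g1 i) = ∑ u : (ZMod d)ˣ, posP k u • c (iota R (u : ZMod d)) := rfl
    rw [h4, h3]
    have h5 : ∑ i, posP k' i • c (g2 i) =
      ∑ v : (ZMod d')ˣ, posP k (sec h v) • c (iota (R * ℓ) (v : ZMod d')) := rfl
    have h6 : (if ℓ.Coprime d' then ∑ v : (ZMod d')ˣ, posP k (sec h v) • c (g3 R ℓ d' m v) else 0) =
        T • ∑ i, posP k' i • c (g3 R ℓ d' m i) := by
      rw [hT]
      split_ifs
      · rw [one_smul]; rfl
      · rw [zero_smul]
    rw [h5, h6]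
    abel
  · rw [fiber_sum h, mul_sum]
    refine sum_congr rfl fun v _ => ?_
    have h1 : ∀ κ ∈ KF (KK h), |k (sec h v * κ)| = |k' v| := fun κ hκ => by
      rw [hK κ (mem_KF.mp hκ)]
    rw [sum_congr rfl h1, sum_const, card_KF, nsmul_eq_mul]
  · rw [hody, hp1, hp3, hp4]
    ring
  · intro ω hω
    set W : ZMod m → ℤ := fun a => ω (addOrderOf a) with hW
    have hW0 : ∀ a, 0 ≤ W a := fun a => hω _
    have s1 : ∑ a, W a * |od y a| ≤ ∑ a, W a * |f a - push g1 k a| +
        (∑ a, W a * |push g2 k' a| + T * ∑ a, W a * |push (g3 R ℓ d' m) k' a|) := by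
      rw [mul_sum, ← sum_add_distrib, ← sum_add_distrib]
      refine sum_le_sum fun a _ => ?_
      rw [hody a]
      have hT0 : 0 ≤ T := by rw [hT]; split_ifs <;> norm_num
      have t1 := abs_add_le (f a - push g1 k a) (push g2 k' a - T * push (g3 R ℓ d' m) k' a)
      have t2 := abs_sub (push g2 k' a) (T * push (g3 R ℓ d' m) k' a)
      rw [abs_mul, abs_of_nonneg hT0] at t2
      calc W a * |(f a - push g1 k a) + (push g2 k' a - T * push (g3 R ℓ d' m) k' a)|
          ≤ W a * (|f a - push g1 k a| + (|push g2 k' a| + T * |push (g3 R ℓ d' m) k' a|)) :=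
            mul_le_mul_of_nonneg_left (by linarith) (hW0 a)
        _ = _ := by ring
    have s2 : ∑ a, W a * |push g2 k' a| ≤ ω d' * ∑ v, |k' v| := by
      refine (push_norm g2 k' hW0).trans (le_of_eq ?_)
      rw [mul_sum]
      refine sum_congr rfl fun v _ => ?_
      simp only [hW, hg2]
      rw [addOrderOf_iota_unit hRℓ]
    have s3 : T * ∑ a, W a * |push (g3 R ℓ d' m) k' a| ≤ T * (ω d' * ∑ v, |k' v|) := by
      rw [hT]
      split_ifs with hcop
      · rw [one_mul, one_mul]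
        refine (push_norm _ k' hW0).trans (le_of_eq ?_)
        rw [mul_sum]
        refine sum_congr rfl fun v _ => ?_
        simp only [hW, g3]
        rw [dif_pos hcop, addOrderOf_iota_unit hRℓ]
      · rw [zero_mul, zero_mul]
    have s4 : ∑ a, W a * |f a - push g1 k a| = ∑ a, W a * |f a| -
        ω d * (∑ u : (ZMod d)ˣ, |f (iota R (u : ZMod d))| -
          ∑ u : (ZMod d)ˣ, |f (iota R (u : ZMod d)) - k u|) := by
      have hp2 : ∀ a : ZMod m, addOrderOf a ≠ d → push g1 k a = 0 := by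
        intro a ha
        unfold push
        apply sum_eq_zero
        intro u _
        rw [if_neg]
        intro h0
        apply ha
        rw [← h0]
        exact addOrderOf_iota_unit hR u
      have q1 : ∑ a, W a * |f a - push g1 k a| - ∑ a, W a * |f a| =
          ∑ a ∈ univ.filter (fun a : ZMod m => addOrderOf a = d),
            (W a * |f a - push g1 k a| - W a * |f a|) := by
        rw [← sum_sub_distrib]
        symm
        apply sum_subset (subset_univ _)
        intro a _ ha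
        rw [hp2 a (fun h0 => ha (mem_filter.mpr ⟨mem_univ _, h0⟩)), sub_zero, sub_self]
      rw [sum_order hR] at q1
      have q2 : ∑ u : (ZMod d)ˣ, (W (iota R (u : ZMod d)) *
          |f (iota R (u : ZMod d)) - push g1 k (iota R (u : ZMod d))| -
            W (iota R (u : ZMod d)) * |f (iota R (u : ZMod d))|) =
          ω d * (∑ u : (ZMod d)ˣ, |f (iota R (u : ZMod d)) - k u| -
            ∑ u : (ZMod d)ˣ, |f (iota R (u : ZMod d))|) := by
        rw [← sum_sub_distrib, mul_sum]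
        refine sum_congr rfl fun u _ => ?_
        simp only [hW]
        rw [hp1, addOrderOf_iota_unit hR]
        ring
      rw [q2] at q1
      linarith
    have s5 : ω d' * ∑ v, |k' v| + T * (ω d' * ∑ v, |k' v|) =
        ω d' * ((if ℓ ∣ d' then 1 else 2) * ∑ v, |k' v|) := by
      by_cases hd : ℓ ∣ d'
      · have hcop : ¬ ℓ.Coprime d' := fun h0 => (Nat.Prime.coprime_iff_not_dvd hℓ).mp h0 hd
        rw [hT, if_neg hcop, if_pos hd]; ring
      · have hcop : ℓ.Coprime d' := (Nat.Prime.coprime_iff_not_dvd hℓ).mpr hd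
        rw [hT, if_pos hcop, if_neg hd]; ring
    rw [s4] at s1
    linarith

end Move

section Opt

variable {m R d : ℕ} [NeZero m] [NeZero d]

/-- number of new letters for one coset -/
def cc (d ℓ : ℕ) : ℤ := if ℓ * ℓ ∣ d then 1 else 2

/-- the weight of the new order, if there is one -/
def om1 (ω : ℕ → ℤ) (d ℓ : ℕ) : ℤ := if ℓ ∣ d then ω (d / ℓ) else 0

theorem move_opt (hR : R * d = m) {ℓ : ℕ} (hℓ : ℓ.Prime) (x : ZMod m → ℤ)
    {k : (ZMod d)ˣ → ℤ} (hK : ∀ κ ∈ KL d ℓ, ∀ u, k (u * κ) = k u) (hodd : ∀ u, k (-u) = - k u)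
    (hz : ¬ ℓ ∣ d → ∀ u, k u = 0) :
    ∃ (y : ZMod m → ℤ) (A : ℤ),
      (∀ (Q : Type) [AddCommGroup Q] (c : ZMod m → Q), OddDist c →
        ∑ a, y a • c a = ∑ a, x a • c a) ∧
      (Nat.card (KL d ℓ) * A = ∑ u, |k u|) ∧
      (∀ u : (ZMod d)ˣ, od y (iota R (u : ZMod d)) = od x (iota R (u : ZMod d)) - k u) ∧
      ∀ ω : ℕ → ℤ, (∀ n, 0 ≤ ω n) → ∑ a : ZMod m, ω (addOrderOf a) * |od y a| ≤
        ∑ a : ZMod m, ω (addOrderOf a) * |od x a| -
          ω d * (∑ u : (ZMod d)ˣ, |od x (iota R (u : ZMod d))| -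
            ∑ u : (ZMod d)ˣ, |od x (iota R (u : ZMod d)) - k u|) +
          om1 ω d ℓ * (cc d ℓ * A) := by
  by_cases hℓd : ℓ ∣ d
  · obtain ⟨d', hd'⟩ := hℓd
    have hd0 : d' ≠ 0 := by
      rintro rfl
      rw [mul_zero] at hd'
      exact NeZero.ne d hd'
    have : NeZero d' := ⟨hd0⟩
    have hKK : KL d ℓ = KK hd'.symm := KL_eq_KK hℓ.pos hd'.symm
    obtain ⟨y, A, h1, h2, h3, h4⟩ := move2 hR hℓ hd'.symm x (k := k)
      (fun κ hκ => hK κ (hKK ▸ hκ)) hodd
    refine ⟨y, A, h1, by rw [hKK]; exact h2, h3, fun ω hω => ?_⟩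
    have e1 : om1 ω d ℓ = ω d' := by
      unfold om1
      rw [if_pos ⟨d', hd'⟩]
      congr 1
      rw [hd']
      exact Nat.mul_div_cancel_left d' hℓ.pos
    have e2 : cc d ℓ = if ℓ ∣ d' then 1 else 2 := by
      unfold cc
      have : ℓ * ℓ ∣ d ↔ ℓ ∣ d' := by
        rw [hd']
        exact Nat.mul_dvd_mul_iff_left hℓ.pos
      simp only [this]
    rw [e1, e2]
    exact h4 ω hω
  · refine ⟨x, 0, fun _ _ _ _ => rfl, ?_, ?_, ?_⟩
    · simp only [hz hℓd, abs_zero, sum_const_zero, mul_zero]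
    · intro u; rw [hz hℓd]; ring
    · intro ω _
      have : om1 ω d ℓ = 0 := if_neg hℓd
      rw [this]
      simp only [hz hℓd, sub_zero, sub_self, mul_zero, zero_mul, add_zero]
      exact le_rfl

/-- three moves -/
theorem move_three (hR : R * d = m) (x : ZMod m → ℤ) {F3 F5 F7 : (ZMod d)ˣ → ℤ}
    (hF : ∀ u : (ZMod d)ˣ, od x (iota R (u : ZMod d)) = F3 u + F5 u + F7 u)
    (i3 : ∀ κ ∈ KL d 3, ∀ u, F3 (u * κ) = F3 u) (o3 : ∀ u, F3 (-u) = - F3 u)
    (z3 : ¬ 3 ∣ d → ∀ u, F3 u = 0)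
    (i5 : ∀ κ ∈ KL d 5, ∀ u, F5 (u * κ) = F5 u) (o5 : ∀ u, F5 (-u) = - F5 u)
    (z5 : ¬ 5 ∣ d → ∀ u, F5 u = 0)
    (i7 : ∀ κ ∈ KL d 7, ∀ u, F7 (u * κ) = F7 u) (o7 : ∀ u, F7 (-u) = - F7 u)
    (z7 : ¬ 7 ∣ d → ∀ u, F7 u = 0) :
    ∃ (y : ZMod m → ℤ) (A3 A5 A7 : ℤ),
      (∀ (Q : Type) [AddCommGroup Q] (c : ZMod m → Q), OddDist c →
        ∑ a, y a • c a = ∑ a, x a • c a) ∧
      (Nat.card (KL d 3) * A3 = ∑ u, |F3 u|) ∧ (Nat.card (KL d 5) * A5 = ∑ u, |F5 u|) ∧
      (Nat.card (KL d 7) * A7 = ∑ u, |F7 u|) ∧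
      ∀ ω : ℕ → ℤ, (∀ n, 0 ≤ ω n) → ∑ a : ZMod m, ω (addOrderOf a) * |od y a| ≤
        ∑ a : ZMod m, ω (addOrderOf a) * |od x a| -
          ω d * (∑ u : (ZMod d)ˣ, |od x (iota R (u : ZMod d))|) +
          om1 ω d 3 * (cc d 3 * A3) + om1 ω d 5 * (cc d 5 * A5) + om1 ω d 7 * (cc d 7 * A7) := by
  obtain ⟨y1, A3, a1, a2, a3, a4⟩ := move_opt hR Nat.prime_three x i3 o3 z3
  obtain ⟨y2, A5, b1, b2, b3, b4⟩ := move_opt hR Nat.prime_five y1 i5 o5 z5
  obtain ⟨y3, A7, c1, c2, c3, c4⟩ := move_opt hR (by norm_num : Nat.Prime 7) y2 i7 o7 z7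
  refine ⟨y3, A3, A5, A7, ?_, a2, b2, c2, ?_⟩
  · intro Q _ c hc
    rw [c1 Q c hc, b1 Q c hc, a1 Q c hc]
  · intro ω hω
    have h1 := a4 ω hω
    have h2 := b4 ω hω
    have h3 := c4 ω hω
    have e1 : ∀ u : (ZMod d)ˣ, od y1 (iota R (u : ZMod d)) = F5 u + F7 u := by
      intro u; rw [a3, hF]; ring
    have e2 : ∀ u : (ZMod d)ˣ, od y2 (iota R (u : ZMod d)) = F7 u := by
      intro u; rw [b3, e1]; ring
    have s1 : ∑ u : (ZMod d)ˣ, |od x (iota R (u : ZMod d)) - F3 u| =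
        ∑ u : (ZMod d)ˣ, |F5 u + F7 u| := by
      refine sum_congr rfl fun u _ => ?_
      rw [hF]; congr 1; ring
    have s2 : ∑ u : (ZMod d)ˣ, |od y1 (iota R (u : ZMod d))| =
        ∑ u : (ZMod d)ˣ, |F5 u + F7 u| := sum_congr rfl fun u _ => by rw [e1]
    have s3 : ∑ u : (ZMod d)ˣ, |od y1 (iota R (u : ZMod d)) - F5 u| =
        ∑ u : (ZMod d)ˣ, |F7 u| := by
      refine sum_congr rfl fun u _ => ?_
      rw [e1]; congr 1; ring
    have s4 : ∑ u : (ZMod d)ˣ, |od y2 (iota R (u : ZMod d))| =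
        ∑ u : (ZMod d)ˣ, |F7 u| := sum_congr rfl fun u _ => by rw [e2]
    have s5 : ∑ u : (ZMod d)ˣ, |od y2 (iota R (u : ZMod d)) - F7 u| = 0 := by
      refine sum_eq_zero fun u _ => ?_
      rw [e2, sub_self, abs_zero]
    rw [s1] at h1
    rw [s2, s3] at h2
    rw [s4, s5] at h3
    linarith

end Opt

end Pool.Agent.Q59.SX
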