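import Pool.Agent.Q59.SX.Zero
import Pool.Agent.Q59.FS.Main

/-!
# The directions of the primes from 11 on do not matter
-/

namespace Pool.Agent.Q59.SX

open Finset Pool.Agent.Q59.FS

section Peel

variable {d : ℕ} [NeZero d]

lemma neg_one_not_mem_KL {n r : ℕ} (hr : r.Prime) (hr2 : r ≠ 2) (hrd : r ∣ d) (hrn : ¬ r ∣ n) :
    (-1 : (ZMod d)ˣ) ∉ KL d n := by
  intro h
  rw [mem_KL, Units.val_neg, Units.val_one] at h
  have h1 : ((2 * n : ℕ) : ZMod d) = 0 := by
    push_cast
    linear_combination -h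
  rw [ZMod.natCast_eq_zero_iff] at h1
  rcases hr.dvd_mul.mp (hrd.trans h1) with h2 | h2
  · exact hr2 ((Nat.prime_dvd_prime_iff_eq hr Nat.prime_two).mp h2)
  · exact hrn h2

lemma not_dvd_prod {L : List ℕ} (hL : ∀ p ∈ L, p.Prime) {r : ℕ} (hr : r.Prime) (h : r ∉ L) :
    ¬ r ∣ L.prod := by
  intro h0
  obtain ⟨p, hp, hrp⟩ := (Nat.Prime.prime hr).dvd_prod_iff.mp h0
  exact h (((Nat.prime_dvd_prime_iff_eq hr (hL p hp)).mp hrp) ▸ hp)

lemma card_ge (hd : d % 2 = 1) {p : ℕ} (hp : p.Prime) (hpd : p ∣ d) :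
    ((p : ℤ) - 1) ≤ Nat.card (KL d p) := by
  have h := card_KL_ge (d := d) (by omega) hp hpd
  unfold nn at h
  have h2 : p ≠ 2 := by rintro rfl; omega
  rw [if_neg h2] at h
  have h1 : 1 ≤ p := hp.one_lt.le
  omega

/-- the peeling for odd functions -/
lemma peel_odd (hd : d % 2 = 1) {F : (ZMod d)ˣ → ℤ} (hodd : ∀ u, F (-u) = - F u)
    (hsum : ∑ u, |F u| ≤ 16) (T : List ℕ) (hT : ∀ ℓ ∈ T, (3 : ℤ) ≤ Nat.card (KL d ℓ)) :
    ∀ Q : List ℕ, (Q ++ T).Nodup → (∀ ℓ ∈ Q ++ T, ℓ.Prime) → (∀ p ∈ Q, 11 ≤ p ∧ p ∣ d) →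
    (∀ u, LB ((Q ++ T).map (KL d)) (TT u F)) → ∀ u, LB (T.map (KL d)) (TT u F) := by
  intro Q
  induction Q with
  | nil => intro _ _ _ h; exact h
  | cons p Q ih =>
    intro hnd hprime hQ hLB
    obtain ⟨hp11, hpd⟩ := hQ p (List.mem_cons_self ..)
    have hp : p.Prime := hprime p (by simp)
    refine ih (List.nodup_cons.mp hnd).2 (fun ℓ hℓ => hprime ℓ (List.mem_cons_of_mem _ hℓ))
      (fun q hq => hQ q (List.mem_cons_of_mem _ hq)) fun u => ?_
    have hcardK : (10 : ℤ) ≤ Nat.card (KL d p) := by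
      have := card_ge hd hp hpd
      have : (11 : ℤ) ≤ p := by exact_mod_cast hp11
      omega
    have hind : Ind (KL d p :: (Q ++ T).map (KL d)) := ind_KL d hprime hnd
    have hν : ∀ K' ∈ (Q ++ T).map (KL d), (3 : ℤ) ≤ Nat.card K' := by
      intro K' hK'
      obtain ⟨r, hr, rfl⟩ := List.mem_map.mp hK'
      rcases List.mem_append.mp hr with h1 | h1
      · obtain ⟨h2, h3⟩ := hQ r (List.mem_cons_of_mem _ h1)
        have h4 := card_ge hd (hprime r (List.mem_cons_of_mem _ hr)) h3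
        have : (11 : ℤ) ≤ r := by exact_mod_cast h2
        omega
      · exact hT r h1
    have hLB' : ∀ u, LB (KL d p :: (Q ++ T).map (KL d)) (TT u F) := hLB
    by_cases hmem : (-1 : (ZMod d)ˣ) ∈ jn (KL d p :: (Q ++ T).map (KL d))
    · obtain ⟨κ₀, hκ₀, v₀, hv₀, he⟩ := Subgroup.mem_sup.mp hmem
      refine lb_sym hLB' hν hκ₀ hv₀ (Or.inr rfl) (fun w => ?_) (Or.inl rfl) ?_
      · rw [he, neg_one_mul, hodd]; ring
      · have := nrm_TT_le hind u F
        linarith
    · refine lb_short (hLB' u) ?_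
      have := two_nrm_le hind hmem (F := F) (fun w => by rw [neg_one_mul, hodd, abs_neg]) u
      linarith

/-- the nontrivial element of `KL d 3` -/
lemma exists_kappa (hd : d % 2 = 1) (h3 : 3 ∣ d) (h9 : ¬ 9 ∣ d) :
    ∃ κ : (ZMod d)ˣ, κ ∈ KL d 3 ∧ κ ≠ 1 ∧ κ * κ = 1 ∧ ∀ κ' ∈ KL d 3, κ' = 1 ∨ κ' = κ := by
  obtain ⟨d', hd'⟩ := h3
  have hnd : ¬ 3 ∣ d' := fun h => h9 (by
    obtain ⟨e, he⟩ := h
    exact ⟨e, by rw [hd', he]; ring⟩)
  have hcard : Nat.card (KL d 3) = 2 := by
    rw [KL_eq_KK (by norm_num) hd'.symm, card_KK_not_dvd Nat.prime_three hd'.symm hnd]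
  have h1 : ∃ κ : KL d 3, κ ≠ 1 := by
    by_contra hcon
    push Not at hcon
    have : Subsingleton (KL d 3) := ⟨fun a b => by rw [hcon a, hcon b]⟩
    have h2 : Nat.card (KL d 3) = 1 := Nat.card_eq_one_iff_unique.mpr ⟨this, ⟨1⟩⟩
    omega
  obtain ⟨κ, hκ⟩ := h1
  have hall : ∀ κ' : KL d 3, κ' = 1 ∨ κ' = κ := by
    obtain ⟨x, y, hxy, hu⟩ := Nat.card_eq_two_iff.mp hcard
    have hm : ∀ z : KL d 3, z = x ∨ z = y := fun z => by
      have : z ∈ (Set.univ : Set (KL d 3)) := Set.mem_univ z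
      rw [← hu] at this
      simpa using this
    intro κ'
    rcases hm 1 with h1 | h1 <;> rcases hm κ with h2 | h2 <;> rcases hm κ' with h3 | h3
    · exact Or.inl (by rw [h1, h3])
    · exact absurd (by rw [h1, h2]) hκ
    · exact Or.inl (by rw [h1, h3])
    · exact Or.inr (by rw [h2, h3])
    · exact Or.inr (by rw [h2, h3])
    · exact Or.inl (by rw [h1, h3])
    · exact absurd (by rw [h1, h2]) hκ
    · exact Or.inl (by rw [h1, h3])
  refine ⟨κ, κ.2, fun h => hκ (Subtype.ext h), ?_, fun κ' hκ' => ?_⟩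
  · have h2 : κ * κ = 1 := by
      rcases hall (κ * κ) with h | h
      · exact h
      · exact absurd (mul_eq_left.mp h) hκ
    exact congrArg Subtype.val h2
  · rcases hall ⟨κ', hκ'⟩ with h | h
    · exact Or.inl (congrArg Subtype.val h)
    · exact Or.inr (congrArg Subtype.val h)

/-- the norm of the difference in the direction of the prime 3 -/
lemma nrm_diff_le {κ : (ZMod d)ˣ} (hκ : κ ∈ KL d 3) (hκ1 : κ ≠ 1)
    (F : (ZMod d)ˣ → ℤ) (P : List (Subgroup (ZMod d)ˣ)) (u : (ZMod d)ˣ) :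
    nrm P (TT u (fun v => F v - F (v * κ))) ≤ nrm (KL d 3 :: P) (TT u F) := by
  classical
  have h1 : nrm P (TT u (fun v => F v - F (v * κ))) ≤
      nrm P (TT u F) + nrm P (TT (u * κ) F) := by
    have h2 := nrm_sub_le (P := P) (TT u F) (TT (u * κ) F)
    have e : TT u (fun v => F v - F (v * κ)) = fun v => TT u F v - TT (u * κ) F v := by
      funext v
      simp only [TT_apply]
      rw [mul_assoc, mul_comm v κ, ← mul_assoc]
    rw [e]
    exact h2
  refine h1.trans ?_
  rw [nrm_cons_TT]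
  have h3 : ∑ z ∈ ({1, κ} : Finset (ZMod d)ˣ), nrm P (TT (u * z) F) ≤
      ∑ z ∈ KF (KL d 3), nrm P (TT (u * z) F) := by
    refine sum_le_sum_of_subset_of_nonneg ?_ (fun _ _ _ => nrm_nonneg _ _)
    intro z hz
    rcases mem_insert.mp hz with rfl | hz
    · exact mem_KF.mpr (Subgroup.one_mem _)
    · rw [mem_singleton] at hz; rw [hz]; exact mem_KF.mpr hκ
  rw [sum_pair hκ1.symm, mul_one] at h3
  exact h3

/-- the peeling for the differences in the direction of the prime 3 -/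
lemma peel_even (hd : d % 2 = 1) (h3 : 3 ∣ d) {κ : (ZMod d)ˣ} (hκ : κ ∈ KL d 3) (hκ1 : κ ≠ 1)
    (hκκ : κ * κ = 1) (hall : ∀ κ' ∈ KL d 3, κ' = 1 ∨ κ' = κ)
    {F : (ZMod d)ˣ → ℤ} (hodd : ∀ u, F (-u) = - F u)
    (hsum : ∑ u, |F u| ≤ 16) (T : List ℕ) (hT : ∀ ℓ ∈ T, (3 : ℤ) ≤ Nat.card (KL d ℓ)) :
    ∀ Q : List ℕ, (3 :: (Q ++ T)).Nodup → (∀ ℓ ∈ Q ++ T, ℓ.Prime) →
    (∀ p ∈ Q, 11 ≤ p ∧ p ∣ d ∧ (d = 3 * p → 19 ≤ p)) →
    (∀ u, LB ((Q ++ T).map (KL d)) (TT u (fun v => F v - F (v * κ)))) →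
    ∀ u, LB (T.map (KL d)) (TT u (fun v => F v - F (v * κ))) := by
  intro Q
  induction Q with
  | nil => intro _ _ _ h; exact h
  | cons p Q ih =>
    intro hnd hprime hQ hLB
    obtain ⟨hp11, hpd, hpb⟩ := hQ p (List.mem_cons_self ..)
    have hp : p.Prime := hprime p (by simp)
    have hnd1 : (p :: (Q ++ T)).Nodup := (List.nodup_cons.mp hnd).2
    have h3n : 3 ∉ p :: (Q ++ T) := (List.nodup_cons.mp hnd).1
    refine ih ?_ (fun ℓ hℓ => hprime ℓ (List.mem_cons_of_mem _ hℓ))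
      (fun q hq => hQ q (List.mem_cons_of_mem _ hq)) fun u => ?_
    · exact List.nodup_cons.mpr ⟨fun h => h3n (List.mem_cons_of_mem _ h), (List.nodup_cons.mp hnd1).2⟩
    set A : (ZMod d)ˣ → ℤ := fun v => F v - F (v * κ) with hA
    have hcardK : (10 : ℤ) ≤ Nat.card (KL d p) := by
      have := card_ge hd hp hpd
      have : (11 : ℤ) ≤ p := by exact_mod_cast hp11
      omega
    have hprime3 : ∀ ℓ ∈ 3 :: (p :: (Q ++ T)), ℓ.Prime := by
      intro ℓ hℓ
      rcases List.mem_cons.mp hℓ with rfl | h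
      · exact Nat.prime_three
      · exact hprime ℓ h
    have hind : Ind (KL d 3 :: KL d p :: (Q ++ T).map (KL d)) := ind_KL d hprime3 hnd
    have hν : ∀ K' ∈ (Q ++ T).map (KL d), (3 : ℤ) ≤ Nat.card K' := by
      intro K' hK'
      obtain ⟨r, hr, rfl⟩ := List.mem_map.mp hK'
      rcases List.mem_append.mp hr with h1 | h1
      · obtain ⟨h2, h3, _⟩ := hQ r (List.mem_cons_of_mem _ h1)
        have h4 := card_ge hd (hprime r (List.mem_cons_of_mem _ hr)) h3
        have : (11 : ℤ) ≤ r := by exact_mod_cast h2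
        omega
      · exact hT r h1
    have hLB' : ∀ u, LB (KL d p :: (Q ++ T).map (KL d)) (TT u A) := hLB
    have hle : nrm (KL d p :: (Q ++ T).map (KL d)) (TT u A) ≤
        nrm (KL d 3 :: KL d p :: (Q ++ T).map (KL d)) (TT u F) := nrm_diff_le hκ hκ1 F _ u
    by_cases hmem : (-1 : (ZMod d)ˣ) ∈ jn (KL d 3 :: KL d p :: (Q ++ T).map (KL d))
    · have htot := nrm_TT_le hind u F
      by_cases hd3 : d = 3 * p
      · refine lb_short (hLB' u) ?_
        have h19 := hpb hd3
        have := card_ge hd hp hpd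
        have : (19 : ℤ) ≤ p := by exact_mod_cast h19
        linarith
      · obtain ⟨κ', hκ', w, hw, he⟩ := Subgroup.mem_sup.mp hmem
        obtain ⟨κ₀, hκ₀, v₀, hv₀, hw'⟩ := Subgroup.mem_sup.mp hw
        rcases hall κ' hκ' with rfl | rfl
        · exfalso
          rw [one_mul] at he
          rw [he] at hw
          exact neg_one_not_mem_KL Nat.prime_three (by norm_num) h3
            (not_dvd_prod hprime Nat.prime_three h3n) (jn_KL_le d (p :: (Q ++ T)) hw)
        · have he2 : κ₀ * v₀ = -κ' := by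
            rw [hw']
            have : κ' * (κ' * w) = w := by rw [← mul_assoc, hκκ, one_mul]
            rw [← this, he, mul_neg, mul_one]
          refine lb_sym hLB' hν hκ₀ hv₀ (Or.inl rfl) (fun w => ?_) (Or.inr ?_) ?_
          · rw [he2, hA]
            simp only
            rw [neg_mul, hodd, neg_mul, hodd]
            have e1 : κ' * w * κ' = w := by rw [mul_right_comm, hκκ, one_mul]
            rw [e1, mul_comm κ' w]
            ring
          · rintro rfl
            rw [mul_one] at he2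
            -- `-1` is in `KL d (3 * p)`
            have h1 : (-1 : (ZMod d)ˣ) ∈ KL d (3 * p) := by
              have h2 : κ' ∈ KL d (3 * p) := KL_le_mul d 3 p hκ'
              have h3 : κ₀ ∈ KL d (3 * p) := by
                rw [mul_comm]; exact KL_le_mul d p 3 hκ₀
              have h4 : (-1 : (ZMod d)ˣ) = κ' * κ₀ := by
                rw [he2, mul_neg, hκκ]
              rw [h4]
              exact (KL d (3 * p)).mul_mem h2 h3
            rw [mem_KL, Units.val_neg, Units.val_one] at h1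
            have h5 : ((2 * (3 * p) : ℕ) : ZMod d) = 0 := by
              push_cast
              push_cast at h1
              linear_combination -h1
            rw [ZMod.natCast_eq_zero_iff] at h5
            have h6 : d ∣ 3 * p := by
              refine Nat.Coprime.dvd_of_dvd_mul_left ?_ h5
              rw [Nat.coprime_two_right, Nat.odd_iff]
              exact hd
            have h7 : 3 * p ∣ d := by
              refine Nat.Coprime.mul_dvd_of_dvd_of_dvd ?_ h3 hpd
              refine (Nat.coprime_primes Nat.prime_three hp).mpr ?_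
              omega
            exact hd3 (Nat.dvd_antisymm h6 h7)
          · linarith
    · refine lb_short (hLB' u) ?_
      have := two_nrm_le hind hmem (F := F) (fun w => by rw [neg_one_mul, hodd, abs_neg]) u
      linarith

end Peel

end Pool.Agent.Q59.SX
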