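import Pool.Agent.Q59.SX.Mv

/-!
# The decomposition of the top part
-/

namespace Pool.Agent.Q59.SX

open Finset Pool.Agent.H916R2 Pool.Agent.Q59.FS

variable {d : ℕ} [NeZero d]

/-- the decomposition in the directions 3, 5 and 7 -/
structure Dec357 (F F3 F5 F7 : (ZMod d)ˣ → ℤ) : Prop where
  add : ∀ u, F u = F3 u + F5 u + F7 u
  inv3 : ∀ κ ∈ KL d 3, ∀ u, F3 (u * κ) = F3 u
  inv5 : ∀ κ ∈ KL d 5, ∀ u, F5 (u * κ) = F5 u
  inv7 : ∀ κ ∈ KL d 7, ∀ u, F7 (u * κ) = F7 u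
  odd3 : ∀ u, F3 (-u) = - F3 u
  odd5 : ∀ u, F5 (-u) = - F5 u
  odd7 : ∀ u, F7 (-u) = - F7 u
  zero3 : ¬ 3 ∣ d → ∀ u, F3 u = 0
  zero5 : ¬ 5 ∣ d → ∀ u, F5 u = 0
  zero7 : ¬ 7 ∣ d → ∀ u, F7 u = 0
  ineq : ∀ A3 A5 A7 : ℤ, Nat.card (KL d 3) * A3 = ∑ u, |F3 u| →
    Nat.card (KL d 5) * A5 = ∑ u, |F5 u| → Nat.card (KL d 7) * A7 = ∑ u, |F7 u| →
    (0 ≤ cc d 3 * A3 ∧ 0 ≤ cc d 5 * A5 ∧ 0 ≤ cc d 7 * A7) ∧ cc d 3 * A3 ≤ ∑ u, |F u| ∧
    (¬ 9 ∣ d → 2 * (cc d 5 * A5) ≤ ∑ u, |F u| ∧ 3 * (cc d 7 * A7) ≤ ∑ u, |F u| ∧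
      (25 ∣ d → 3 * (cc d 5 * A5) ≤ ∑ u, |F u|)) ∧
    (9 ∣ d → cc d 3 * A3 + cc d 5 * A5 + cc d 7 * A7 ≤ ∑ u, |F u|)

lemma neg_one_not_mem_jn {L : List ℕ} (hL : ∀ p ∈ L, p.Prime) {r : ℕ} (hr : r.Prime) (hr2 : r ≠ 2)
    (hrd : r ∣ d) (h : r ∉ L) : (-1 : (ZMod d)ˣ) ∉ jn (L.map (KL d)) := fun h0 =>
  neg_one_not_mem_KL hr hr2 hrd (not_dvd_prod hL hr h) (jn_KL_le d L h0)

lemma nonneg_of_mul {a b c : ℤ} (ha : 0 < a) (h : a * b = c) (hc : 0 ≤ c) : 0 ≤ b := by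
  by_contra hcon
  push Not at hcon
  have := mul_neg_of_pos_of_neg ha hcon
  omega

lemma cc_nonneg (d ℓ : ℕ) : 0 ≤ cc d ℓ := by unfold cc; split_ifs <;> norm_num

lemma cc_five (d : ℕ) : cc d 5 = c5 d := by unfold cc c5; norm_num

lemma cc_seven (d : ℕ) : cc d 7 = c7 d := by unfold cc c7; norm_num

theorem exists_dec357 (hd : d % 2 = 1) {F : (ZMod d)ˣ → ℤ} (hodd : ∀ u, F (-u) = - F u)
    (hsum : ∑ u, |F u| ≤ 16) (hLB : ∀ u, LB ((Tl d).map (KL d)) (TT u F))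
    {p : ℕ} (hp : p.Prime) (hp11 : 11 ≤ p) (hpd : p ∣ d) :
    ∃ F3 F5 F7 : (ZMod d)ˣ → ℤ, Dec357 F F3 F5 F7 := by
  have hN0 : 0 ≤ ∑ u, |F u| := sum_nonneg fun _ _ => abs_nonneg _
  have hc3 : 0 < (Nat.card (KL d 3) : ℤ) := by exact_mod_cast Nat.card_pos
  have hc5 : 0 < (Nat.card (KL d 5) : ℤ) := by exact_mod_cast Nat.card_pos
  have hc7 : 0 < (Nat.card (KL d 7) : ℤ) := by exact_mod_cast Nat.card_pos
  have hpT : p ∉ Tl d := fun h => by
    have := (mem_Tl.mp h).1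
    omega
  have hneg : (-1 : (ZMod d)ˣ) ∉ jn ((Tl d).map (KL d)) :=
    neg_one_not_mem_jn (fun q hq => prime_Tl hq) hp (by omega) hpd hpT
  have hind : Ind ((Tl d).map (KL d)) := ind_KL d (fun q hq => prime_Tl hq) (nodup_Tl d)
  have h8 : ∀ u, nrm ((Tl d).map (KL d)) (TT u F) ≤ 8 := by
    intro u
    have := two_nrm_le hind hneg (F := F) (fun w => by rw [neg_one_mul, hodd, abs_neg]) u
    omega
  by_cases h3 : 3 ∣ d
  · have hTl : Tl d = 3 :: T57 d := by unfold Tl; rw [if_pos h3]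
    rw [hTl] at hLB hneg hind h8
    have hF : ∀ u, F (-1 * u) = - F u := fun u => by rw [neg_one_mul, hodd]
    have hK : KL d 3 ⊓ (jn ((T57 d).map (KL d)) ⊔ Subgroup.zpowers (-1 : (ZMod d)ˣ)) = ⊥ := by
      rw [eq_bot_iff]
      rintro κ ⟨hκ, hκ'⟩
      obtain ⟨v, hv, z, hz, rfl⟩ := Subgroup.mem_sup.mp hκ'
      obtain ⟨k, rfl⟩ := Subgroup.mem_zpowers_iff.mp hz
      rcases Int.even_or_odd k with hk | hk
      · rw [hk.neg_one_zpow, mul_one] at hκ ⊢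
        have h1 : v ∈ KL d 3 ⊓ jn ((T57 d).map (KL d)) := ⟨hκ, hv⟩
        have h2 : KL d 3 ⊓ jn ((T57 d).map (KL d)) = ⊥ := hind.1
        rw [h2] at h1
        exact h1
      · exfalso
        rw [hk.neg_one_zpow] at hκ
        apply hneg
        have h1 : (-1 : (ZMod d)ˣ) = v * -1 * v⁻¹ := by
          rw [mul_comm v (-1), mul_inv_cancel_right]
        rw [h1]
        exact Subgroup.mul_mem_sup hκ ((jn ((T57 d).map (KL d))).inv_mem hv)
    obtain ⟨g, hg⟩ := exists_sel (KL d 3) ((T57 d).map (KL d)) (-1) F hF hK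
    have hgo : ∀ u, g (-u) = - g u := fun u => by
      have := hg.odd u
      rwa [neg_one_mul] at this
    obtain ⟨h5, h7, hD⟩ := exists_dec57 (A := fun v => F v - g v) (fun u => hg.lb (hLB u))
      (fun u => (hg.nrm_le u).trans (h8 u)) (fun u => by rw [hodd, hgo]; ring)
    refine ⟨g, h5, h7, ?_, hg.inv, hD.inv5, hD.inv7, hgo, hD.odd5, hD.odd7,
      fun h => absurd h3 h, hD.zero5, hD.zero7, ?_⟩
    · intro u
      have := hD.add u
      linarith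
    · intro A3 A5 A7 e3 e5 e7
      obtain ⟨j1, j2, j3, j4⟩ := hD.ineq A5 A7 e5 e7
      have hA3 : 0 ≤ A3 := nonneg_of_mul hc3 e3 (sum_nonneg fun _ _ => abs_nonneg _)
      have hA5 : 0 ≤ A5 := nonneg_of_mul hc5 e5 (sum_nonneg fun _ _ => abs_nonneg _)
      have hA7 : 0 ≤ A7 := nonneg_of_mul hc7 e7 (sum_nonneg fun _ _ => abs_nonneg _)
      have hg1 := hg.le
      have hg2 := hg.rest
      rw [← e3] at hg1 hg2
      rw [cc_five, cc_seven]
      have n5 : 0 ≤ c5 d * A5 := mul_nonneg (by rw [← cc_five]; exact cc_nonneg _ _) hA5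
      have n7 : 0 ≤ c7 d * A7 := mul_nonneg (by rw [← cc_seven]; exact cc_nonneg _ _) hA7
      by_cases h9 : 9 ∣ d
      · have hk3 : (Nat.card (KL d 3) : ℤ) = 3 := by rw [card_three h9]; norm_num
        have hcc : cc d 3 = 1 := by unfold cc; rw [if_pos (by norm_num; exact h9)]
        rw [hk3] at hg1 hg2
        rw [hcc]
        refine ⟨⟨by omega, n5, n7⟩, by omega, fun h => absurd h9 h, fun _ => by omega⟩
      · have hk3 : (Nat.card (KL d 3) : ℤ) = 2 := by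
          obtain ⟨e, he⟩ := h3
          rw [KL_eq_KK (by norm_num) he.symm, card_KK_not_dvd Nat.prime_three he.symm]
          · norm_num
          · rintro ⟨f, hf⟩
            exact h9 ⟨f, by rw [he, hf]; ring⟩
        have hcc : cc d 3 = 2 := by unfold cc; rw [if_neg (by norm_num; exact h9)]
        rw [hk3] at hg1 hg2
        rw [hcc]
        refine ⟨⟨by omega, n5, n7⟩, by omega, fun _ => ⟨by omega, by omega, fun h25 => ?_⟩,
          fun h => absurd h h9⟩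
        have := j4 h25
        have hc : c5 d = 1 := if_pos h25
        rw [hc]
        omega
  · have hTl : Tl d = T57 d := by unfold Tl; rw [if_neg h3]
    rw [hTl] at hLB h8
    obtain ⟨h5, h7, hD⟩ := exists_dec57 hLB h8 hodd
    refine ⟨fun _ => 0, h5, h7, ?_, fun _ _ _ => rfl, hD.inv5, hD.inv7, fun _ => by ring,
      hD.odd5, hD.odd7, fun _ _ => rfl, hD.zero5, hD.zero7, ?_⟩
    · intro u
      rw [hD.add u]; ring
    · intro A3 A5 A7 e3 e5 e7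
      obtain ⟨j1, j2, j3, j4⟩ := hD.ineq A5 A7 e5 e7
      have hA3 : A3 = 0 := by
        simp only [abs_zero, sum_const_zero, mul_eq_zero] at e3
        exact e3.resolve_left hc3.ne'
      have hA5 : 0 ≤ A5 := nonneg_of_mul hc5 e5 (sum_nonneg fun _ _ => abs_nonneg _)
      have hA7 : 0 ≤ A7 := nonneg_of_mul hc7 e7 (sum_nonneg fun _ _ => abs_nonneg _)
      have n5 : 0 ≤ c5 d * A5 := mul_nonneg (by rw [← cc_five]; exact cc_nonneg _ _) hA5
      have n7 : 0 ≤ c7 d * A7 := mul_nonneg (by rw [← cc_seven]; exact cc_nonneg _ _) hA7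
      rw [cc_five, cc_seven, hA3, mul_zero]
      refine ⟨⟨le_rfl, n5, n7⟩, hN0, fun _ => ⟨by omega, by omega, fun h25 => ?_⟩, fun h => ?_⟩
      · have := j4 h25
        have hc : c5 d = 1 := if_pos h25
        rw [hc]
        omega
      · exact absurd ((show 3 ∣ 9 by norm_num).trans h) h3

end Pool.Agent.Q59.SX
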