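import Pool.Agent.Q59.SX.Peel

/-!
# Box sums in the directions 3, 5, 7
-/

namespace Pool.Agent.Q59.SX

open Finset Pool.Agent.Q59.FS

/-- the primes among 5, 7 which divide `d` -/
def T57 (d : ℕ) : List ℕ := [5, 7].filter (fun r => r ∣ d)

/-- the primes among 3, 5, 7 which divide `d` -/
def Tl (d : ℕ) : List ℕ := if 3 ∣ d then 3 :: T57 d else T57 d

/-- the primes from 11 on which divide `d` -/
def Ql (d : ℕ) : List ℕ := d.primeFactorsList.dedup.filter (fun r => 11 ≤ r)

lemma mem_T57 {d r : ℕ} : r ∈ T57 d ↔ (r = 5 ∨ r = 7) ∧ r ∣ d := by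
  unfold T57
  simp [List.mem_filter]

lemma mem_Tl {d r : ℕ} : r ∈ Tl d ↔ (r = 3 ∨ r = 5 ∨ r = 7) ∧ r ∣ d := by
  unfold Tl
  split_ifs with h
  · rw [List.mem_cons, mem_T57]
    constructor
    · rintro (rfl | ⟨h1, h2⟩)
      · exact ⟨Or.inl rfl, h⟩
      · exact ⟨Or.inr h1, h2⟩
    · rintro ⟨rfl | h1, h2⟩
      · exact Or.inl rfl
      · exact Or.inr ⟨h1, h2⟩
  · rw [mem_T57]
    constructor
    · rintro ⟨h1, h2⟩
      exact ⟨Or.inr h1, h2⟩
    · rintro ⟨rfl | h1, h2⟩
      · exact absurd h2 h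
      · exact ⟨h1, h2⟩

lemma mem_Ql {d r : ℕ} (hd : d ≠ 0) : r ∈ Ql d ↔ r.Prime ∧ r ∣ d ∧ 11 ≤ r := by
  unfold Ql
  rw [List.mem_filter, List.mem_dedup, Nat.mem_primeFactorsList hd]
  simp [and_assoc]

lemma prime_T57 {d r : ℕ} (h : r ∈ T57 d) : r.Prime := by
  rcases (mem_T57.mp h).1 with rfl | rfl <;> norm_num

lemma prime_Tl {d r : ℕ} (h : r ∈ Tl d) : r.Prime := by
  rcases (mem_Tl.mp h).1 with rfl | rfl | rfl <;> norm_num

lemma nodup_T57 (d : ℕ) : (T57 d).Nodup := List.Nodup.filter _ (by decide)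

lemma nodup_Tl (d : ℕ) : (Tl d).Nodup := by
  unfold Tl
  split_ifs
  · refine List.nodup_cons.mpr ⟨fun h => ?_, nodup_T57 d⟩
    have := (mem_T57.mp h).1
    omega
  · exact nodup_T57 d

lemma nodup_Ql (d : ℕ) : (Ql d).Nodup := List.Nodup.filter _ (List.nodup_dedup _)

lemma cover {d r : ℕ} (hd0 : d ≠ 0) (hd : d % 2 = 1) (hr : r.Prime) (hrd : r ∣ d) :
    r ∈ Ql d ∨ r ∈ Tl d := by
  by_cases h : 11 ≤ r
  · exact Or.inl ((mem_Ql hd0).mpr ⟨hr, hrd, h⟩)
  · right
    rw [mem_Tl]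
    refine ⟨?_, hrd⟩
    have h2 : r ≠ 2 := by rintro rfl; omega
    have h3 := hr.two_le
    have h4 : r < 11 := by omega
    interval_cases r
    · exact absurd rfl h2
    · left; rfl
    · exact absurd hr (by norm_num)
    · right; left; rfl
    · exact absurd hr (by norm_num)
    · right; right; rfl
    · exact absurd hr (by norm_num)
    · exact absurd hr (by norm_num)
    · exact absurd hr (by norm_num)

variable {d : ℕ} [NeZero d]

lemma card_T57 (hd : d % 2 = 1) {r : ℕ} (h : r ∈ T57 d) : (4 : ℤ) ≤ Nat.card (KL d r) := by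
  obtain ⟨h1, h2⟩ := mem_T57.mp h
  have h3 := card_ge hd (prime_T57 h) h2
  rcases h1 with rfl | rfl <;> push_cast at h3 <;> omega

lemma card_three (h9 : 9 ∣ d) : Nat.card (KL d 3) = 3 := by
  obtain ⟨e, he⟩ := h9
  have h3 : 3 * (3 * e) = d := by rw [he]; ring
  rw [KL_eq_KK (by norm_num) h3, card_KK_dvd Nat.prime_three h3 (Dvd.intro _ rfl)]

omit [NeZero d] in
lemma lb_zero (P : List (Subgroup (ZMod d)ˣ)) {F : (ZMod d)ˣ → ℤ} (h : ∀ v, F v = 0) : LB P F :=
  (ZZ.of_forall fun v _ => h v).lb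

theorem lb_T (hd : d % 2 = 1) {F : (ZMod d)ˣ → ℤ} (hodd : ∀ u, F (-u) = - F u)
    (hsum : ∑ u, |F u| ≤ 16)
    (hall : ∀ L : List ℕ, (∀ ℓ : ℕ, ℓ.Prime → ℓ ∣ d → ℓ ∈ L) →
      ∀ u, LB (L.map (KL d)) (TT u F))
    (hbad : ∀ p : ℕ, p.Prime → 11 ≤ p → d = 3 * p → 19 ≤ p) :
    ∀ u, LB ((Tl d).map (KL d)) (TT u F) := by
  have hd0 : d ≠ 0 := NeZero.ne d
  by_cases h3 : 3 ∣ d ∧ ¬ 9 ∣ d
  · obtain ⟨h3, h9⟩ := h3
    obtain ⟨κ, hκ, hκ1, hκκ, hκall⟩ := exists_kappa hd h3 h9
    have hTl : Tl d = 3 :: T57 d := by unfold Tl; rw [if_pos h3]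
    have hcov : ∀ ℓ : ℕ, ℓ.Prime → ℓ ∣ d → ℓ ∈ 3 :: (Ql d ++ T57 d) := by
      intro ℓ hℓ hℓd
      rcases cover hd0 hd hℓ hℓd with h | h
      · exact List.mem_cons_of_mem _ (List.mem_append_left _ h)
      · rw [hTl] at h
        rcases List.mem_cons.mp h with h | h
        · rw [h]; exact List.mem_cons_self ..
        · exact List.mem_cons_of_mem _ (List.mem_append_right _ h)
    have hF := hall _ hcov
    have hA : ∀ u, LB ((Ql d ++ T57 d).map (KL d)) (TT u (fun v => F v - F (v * κ))) := by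
      intro u
      have h1 := hF u 1 (Subgroup.one_mem _) κ hκ
      have e : TT u (fun v => F v - F (v * κ)) = fun v => TT u F (v * 1) - TT u F (v * κ) := by
        funext v
        simp only [TT_apply, mul_one, mul_assoc]
      rw [e]
      exact h1
    have hA' := peel_even hd h3 hκ hκ1 hκκ hκall hodd hsum (T57 d)
      (fun ℓ hℓ => by have := card_T57 hd hℓ; omega) (Ql d) (by
        refine List.nodup_cons.mpr ⟨fun h => ?_, ?_⟩
        · rcases List.mem_append.mp h with h | h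
          · have := ((mem_Ql hd0).mp h).2.2
            omega
          · have := (mem_T57.mp h).1
            omega
        · refine List.Nodup.append (nodup_Ql d) (nodup_T57 d) ?_
          intro r hr hr'
          have h1 := ((mem_Ql hd0).mp hr).2.2
          have h2 := (mem_T57.mp hr').1
          omega) (by
        intro ℓ hℓ
        rcases List.mem_append.mp hℓ with h | h
        · exact ((mem_Ql hd0).mp h).1
        · exact prime_T57 h) (by
        intro p hp
        obtain ⟨h1, h2, h3⟩ := (mem_Ql hd0).mp hp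
        exact ⟨h3, h2, hbad p h1 h3⟩) hA
    intro u
    rw [hTl]
    intro κ1 hκ1' κ2 hκ2'
    have hAu : LB ((T57 d).map (KL d)) (fun v => TT u F (v * 1) - TT u F (v * κ)) := by
      have h1 := hA' u
      have e : TT u (fun v => F v - F (v * κ)) = fun v => TT u F (v * 1) - TT u F (v * κ) := by
        funext v
        simp only [TT_apply, mul_one, mul_assoc]
      rw [e] at h1
      exact h1
    rcases hκall κ1 hκ1' with rfl | rfl <;> rcases hκall κ2 hκ2' with rfl | rfl
    · exact lb_zero _ fun v => sub_self _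
    · exact hAu
    · have h2 := (lb_zero ((T57 d).map (KL d)) (F := fun _ => 0) fun _ => rfl).sub hAu
      have e : (fun v => TT u F (v * κ1) - TT u F (v * 1)) =
          fun v => (0 : ℤ) - (TT u F (v * 1) - TT u F (v * κ1)) := by funext v; ring
      exact e ▸ h2
    · exact lb_zero _ fun v => sub_self _
  · have hcov : ∀ ℓ : ℕ, ℓ.Prime → ℓ ∣ d → ℓ ∈ Ql d ++ Tl d := by
      intro ℓ hℓ hℓd
      rcases cover hd0 hd hℓ hℓd with h | h
      · exact List.mem_append_left _ h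
      · exact List.mem_append_right _ h
    refine peel_odd hd hodd hsum (Tl d) ?_ (Ql d) ?_ ?_ ?_ (hall _ hcov)
    · intro ℓ hℓ
      obtain ⟨h1, h2⟩ := mem_Tl.mp hℓ
      rcases h1 with rfl | h1
      · have h9 : 9 ∣ d := by
          by_contra h9
          exact h3 ⟨h2, h9⟩
        rw [card_three h9]
        norm_num
      · have := card_T57 hd (mem_T57.mpr ⟨h1, h2⟩)
        omega
    · refine List.Nodup.append (nodup_Ql d) (nodup_Tl d) ?_
      intro r hr hr'
      have h1 := ((mem_Ql hd0).mp hr).2.2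
      have h2 := (mem_Tl.mp hr').1
      omega
    · intro ℓ hℓ
      rcases List.mem_append.mp hℓ with h | h
      · exact ((mem_Ql hd0).mp h).1
      · exact prime_Tl h
    · intro p hp
      obtain ⟨_, h2, h3⟩ := (mem_Ql hd0).mp hp
      exact ⟨h3, h2⟩

end Pool.Agent.Q59.SX
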