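import Pool.Agent.Q59.SX.Step

/-!
# The weights
-/

namespace Pool.Agent.Q59.SX

open Finset Pool.Agent.H916R2 Pool.Agent.Q59.FS

/-- six times the product of the weights `1`, `1/2`, `1/3` of the primes 3, 5, 7 concerned, times the
factorial of their number -/
def w3 : Bool → Bool → Bool → ℤ
  | false, false, false => 6
  | true, false, false => 6
  | false, true, false => 3
  | false, false, true => 2
  | true, true, false => 6
  | true, false, true => 4
  | false, true, true => 2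
  | true, true, true => 6

lemma w3_nonneg (a b c : Bool) : 0 ≤ w3 a b c := by
  rcases a with _ | _ <;> rcases b with _ | _ <;> rcases c with _ | _ <;> simp [w3]

lemma w3_le (a b c : Bool) : w3 a b c ≤ 6 := by
  rcases a with _ | _ <;> rcases b with _ | _ <;> rcases c with _ | _ <;> simp [w3]

/-- the weight of a quotient -/
def wq (q : ℕ) : ℤ := w3 (decide (3 ∣ q)) (decide (5 ∣ q)) (decide (7 ∣ q))

/-- no prime factors but 3, 5, 7 -/
def Sm (q : ℕ) : Prop := ∀ p : ℕ, p.Prime → p ∣ q → p = 3 ∨ p = 5 ∨ p = 7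

open scoped Classical in
/-- the weight of the order `n` for the target `t` -/
noncomputable def wt (t n : ℕ) : ℤ :=
  if t ∣ n ∧ Sm (n / t) then (if 9 ∣ n then 6 else wq (n / t)) else 0

lemma wt_nonneg (t n : ℕ) : 0 ≤ wt t n := by
  unfold wt
  split_ifs
  · norm_num
  · exact w3_nonneg _ _ _
  · norm_num

lemma wt_le (t n : ℕ) : wt t n ≤ 6 := by
  unfold wt
  split_ifs
  · norm_num
  · exact w3_le _ _ _
  · norm_num

lemma wt_self {t : ℕ} (ht : 0 < t) : wt t t = 6 := by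
  unfold wt
  rw [Nat.div_self ht, if_pos ⟨dvd_refl _, fun p hp h => absurd (Nat.dvd_one.mp h) hp.one_lt.ne'⟩]
  split_ifs
  · rfl
  · unfold wq w3; simp

lemma om1_wt_zero {t d ℓ : ℕ} (ht : 0 < t) (hd : 0 < d) (hℓ : ℓ = 3 ∨ ℓ = 5 ∨ ℓ = 7)
    (h : ¬ (t ∣ d ∧ Sm (d / t))) : om1 (wt t) d ℓ = 0 := by
  have hℓ0 : 0 < ℓ := by omega
  unfold om1
  split_ifs with h1
  · unfold wt
    rw [if_neg]
    rintro ⟨h2, h3⟩
    apply h
    obtain ⟨e, he⟩ := h1
    have e1 : d / ℓ = e := by rw [he]; exact Nat.mul_div_cancel_left e hℓ0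
    rw [e1] at h2 h3
    obtain ⟨f, hf⟩ := h2
    have e2 : e / t = f := by rw [hf]; exact Nat.mul_div_cancel_left f ht
    rw [e2] at h3
    have e3 : d = t * (ℓ * f) := by rw [he, hf]; ring
    refine ⟨⟨ℓ * f, e3⟩, ?_⟩
    rw [e3, Nat.mul_div_cancel_left _ ht]
    intro p hp hpd
    have hℓp : ℓ.Prime := by rcases hℓ with rfl | rfl | rfl <;> norm_num
    rcases hp.dvd_mul.mp hpd with h4 | h4
    · rw [(Nat.prime_dvd_prime_iff_eq hp hℓp).mp h4]
      exact hℓ
    · exact h3 p hp h4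
  · rfl

lemma om1_wt {t q d ℓ : ℕ} (ht : 0 < t) (h : t * q = d) (hq : 0 < q) (hs : Sm q) (h9 : ¬ 9 ∣ d)
    (hℓ : ℓ = 3 ∨ ℓ = 5 ∨ ℓ = 7) :
    om1 (wt t) d ℓ = if ℓ ∣ q then wq (q / ℓ) else 0 := by
  have hℓ0 : 0 < ℓ := by omega
  have hℓp : ℓ.Prime := by rcases hℓ with rfl | rfl | rfl <;> norm_num
  split_ifs with h1
  · obtain ⟨e, he⟩ := h1
    have e1 : q / ℓ = e := by rw [he]; exact Nat.mul_div_cancel_left e hℓ0
    have e2 : d = ℓ * (t * e) := by rw [← h, he]; ring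
    have e3 : d / ℓ = t * e := by rw [e2]; exact Nat.mul_div_cancel_left _ hℓ0
    unfold om1
    rw [if_pos ⟨t * e, e2⟩, e3]
    unfold wt
    rw [Nat.mul_div_cancel_left e ht, if_pos, if_neg, e1]
    · intro h2
      exact h9 (h2.trans (Dvd.intro_left ℓ e2.symm))
    · refine ⟨Dvd.intro e rfl, fun p hp hpe => hs p hp ?_⟩
      rw [he]
      exact Dvd.dvd.mul_left hpe ℓ
  · unfold om1
    split_ifs with h2
    · unfold wt
      rw [if_neg]
      rintro ⟨h3, _⟩
      apply h1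
      obtain ⟨e, he⟩ := h2
      have e1 : d / ℓ = e := by rw [he]; exact Nat.mul_div_cancel_left e hℓ0
      rw [e1] at h3
      obtain ⟨f, hf⟩ := h3
      have e2 : t * q = t * (ℓ * f) := by rw [h, he, hf]; ring
      have e3 := Nat.eq_of_mul_eq_mul_left ht e2
      exact ⟨f, e3⟩
    · rfl

lemma dvd_div_iff' {q ℓ r : ℕ} (hℓ : ℓ.Prime) (hr : r.Prime) (hne : r ≠ ℓ) (h : ℓ ∣ q) :
    r ∣ q / ℓ ↔ r ∣ q := by
  obtain ⟨e, rfl⟩ := h
  rw [Nat.mul_div_cancel_left e hℓ.pos]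
  have hc : r.Coprime ℓ := (Nat.coprime_primes hr hℓ).mpr hne
  exact hc.dvd_mul_left.symm

lemma dvd_div_self {q ℓ : ℕ} (hℓ : ℓ.Prime) (h : ℓ ∣ q) : ℓ ∣ q / ℓ ↔ ℓ * ℓ ∣ q := by
  obtain ⟨e, rfl⟩ := h
  rw [Nat.mul_div_cancel_left e hℓ.pos]
  exact (Nat.mul_dvd_mul_iff_left hℓ.pos).symm

theorem wt_step {t d : ℕ} (ht : 0 < t) (hd : 0 < d) {γ3 γ5 γ7 N : ℤ}
    (n3 : 0 ≤ γ3) (n5 : 0 ≤ γ5) (n7 : 0 ≤ γ7) (h3 : γ3 ≤ N)
    (h57 : ¬ 9 ∣ d → 2 * γ5 ≤ N ∧ 3 * γ7 ≤ N ∧ (25 ∣ d → 3 * γ5 ≤ N))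
    (h9 : 9 ∣ d → γ3 + γ5 + γ7 ≤ N) :
    om1 (wt t) d 3 * γ3 + om1 (wt t) d 5 * γ5 + om1 (wt t) d 7 * γ7 ≤ wt t d * N := by
  by_cases h : t ∣ d ∧ Sm (d / t)
  · by_cases hd9 : 9 ∣ d
    · have e : wt t d = 6 := by unfold wt; rw [if_pos h, if_pos hd9]
      have hb : ∀ ℓ, om1 (wt t) d ℓ ≤ 6 := by
        intro ℓ
        unfold om1
        split_ifs
        · exact wt_le _ _
        · norm_num
      have := h9 hd9
      have m3 := mul_le_mul_of_nonneg_right (hb 3) n3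
      have m5 := mul_le_mul_of_nonneg_right (hb 5) n5
      have m7 := mul_le_mul_of_nonneg_right (hb 7) n7
      rw [e]
      linarith
    · obtain ⟨k5, k7, k25⟩ := h57 hd9
      obtain ⟨⟨q, hq⟩, hs⟩ := h
      have e1 : d / t = q := by rw [hq]; exact Nat.mul_div_cancel_left q ht
      rw [e1] at hs
      have hq0 : 0 < q := Nat.pos_of_ne_zero (by rintro rfl; omega)
      have e : wt t d = wq q := by
        unfold wt
        rw [e1, if_pos ⟨⟨q, hq⟩, hs⟩, if_neg hd9]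
      rw [e, om1_wt ht hq.symm hq0 hs hd9 (Or.inl rfl),
        om1_wt ht hq.symm hq0 hs hd9 (Or.inr (Or.inl rfl)),
        om1_wt ht hq.symm hq0 hs hd9 (Or.inr (Or.inr rfl))]
      have q9 : ¬ 3 * 3 ∣ q := fun h => hd9 (by rw [hq]; exact Dvd.dvd.mul_left h t)
      have q25 : 5 * 5 ∣ q → 3 * γ5 ≤ N := fun h => k25 (by rw [hq]; exact Dvd.dvd.mul_left h t)
      have p3 : Nat.Prime 3 := by norm_num
      have p5 : Nat.Prime 5 := by norm_num
      have p7 : Nat.Prime 7 := by norm_num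
      have w_3 : 3 ∣ q → wq (q / 3) = w3 false (decide (5 ∣ q)) (decide (7 ∣ q)) := by
        intro h
        unfold wq
        congr 1
        · rw [decide_eq_false]
          rw [dvd_div_self p3 h]; exact q9
        · exact decide_eq_decide.mpr (dvd_div_iff' p3 p5 (by norm_num) h)
        · exact decide_eq_decide.mpr (dvd_div_iff' p3 p7 (by norm_num) h)
      have w_5 : 5 ∣ q → wq (q / 5) = w3 (decide (3 ∣ q)) (decide (5 * 5 ∣ q)) (decide (7 ∣ q)) := by
        intro h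
        unfold wq
        congr 1
        · exact decide_eq_decide.mpr (dvd_div_iff' p5 p3 (by norm_num) h)
        · exact decide_eq_decide.mpr (dvd_div_self p5 h)
        · exact decide_eq_decide.mpr (dvd_div_iff' p5 p7 (by norm_num) h)
      have w_7 : 7 ∣ q → wq (q / 7) = w3 (decide (3 ∣ q)) (decide (5 ∣ q)) (decide (7 * 7 ∣ q)) := by
        intro h
        unfold wq
        congr 1
        · exact decide_eq_decide.mpr (dvd_div_iff' p7 p3 (by norm_num) h)
        · exact decide_eq_decide.mpr (dvd_div_iff' p7 p5 (by norm_num) h)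
        · exact decide_eq_decide.mpr (dvd_div_self p7 h)
      unfold wq at *
      by_cases a3 : 3 ∣ q <;> by_cases a5 : 5 ∣ q <;> by_cases a7 : 7 ∣ q <;>
        by_cases a25 : 5 * 5 ∣ q <;> by_cases a49 : 7 * 7 ∣ q <;>
        simp only [a3, a5, a7, a25, a49, if_true, if_false, decide_true, decide_false, true_implies,
          false_implies, w3] at * <;> (try rw [w_3]) <;> (try rw [w_5]) <;> (try rw [w_7]) <;>
        linarith
  · rw [om1_wt_zero ht hd (Or.inl rfl) h, om1_wt_zero ht hd (Or.inr (Or.inl rfl)) h,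
      om1_wt_zero ht hd (Or.inr (Or.inr rfl)) h]
    have e : wt t d = 0 := by unfold wt; rw [if_neg h]
    rw [e]
    simp

end Pool.Agent.Q59.SX
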