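import Pool.Agent.Q59.FS.Ker

/-!
# Directions in which a short function has an empty slice
-/

namespace Pool.Agent.Q59.SX

open Finset Pool.Agent.Q59.FS

section Gen

variable {G : Type*} [CommGroup G] [Finite G]

/-- a function of norm one has exactly one nonzero value -/
lemma unique_of_nrm_one {P : List (Subgroup G)} : ∀ {F : G → ℤ}, nrm P F = 1 →
    (∃ v ∈ jn P, F v ≠ 0) ∧ ∀ v ∈ jn P, ∀ w ∈ jn P, F v ≠ 0 → F w ≠ 0 → v = w := by
  classical
  induction P with
  | nil =>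
    intro F h
    refine ⟨⟨1, Subgroup.one_mem _, ?_⟩, ?_⟩
    · intro h0
      rw [nrm_nil, h0] at h
      simp at h
    · intro v hv w hw _ _
      rw [show v = 1 from hv, show w = 1 from hw]
  | cons K P ih =>
    intro F h
    rw [nrm_cons] at h
    have hex : ∃ κ ∈ KF K, nrm P (fun v => F (v * κ)) ≠ 0 := by
      by_contra hcon
      push Not at hcon
      rw [sum_eq_zero hcon] at h
      exact absurd h (by norm_num)
    obtain ⟨κ₀, hκ₀, hne⟩ := hex
    have hpos : ∀ κ ∈ KF K, 0 ≤ nrm P (fun v => F (v * κ)) := fun κ _ => nrm_nonneg P _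
    have hle : nrm P (fun v => F (v * κ₀)) ≤ 1 := by
      rw [← h]
      exact single_le_sum (f := fun κ => nrm P (fun v => F (v * κ))) hpos hκ₀
    have h0 := hpos κ₀ hκ₀
    have h1 : nrm P (fun v => F (v * κ₀)) = 1 := by omega
    have hz : ∀ κ ∈ KF K, κ ≠ κ₀ → nrm P (fun v => F (v * κ)) = 0 := by
      intro κ hκ hne'
      have h2 : ∑ κ ∈ ({κ₀, κ} : Finset G), nrm P (fun v => F (v * κ)) ≤
          ∑ κ ∈ KF K, nrm P (fun v => F (v * κ)) := by
        refine sum_le_sum_of_subset_of_nonneg ?_ (fun κ hκ _ => hpos κ hκ)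
        intro z hz
        rcases mem_insert.mp hz with rfl | hz
        · exact hκ₀
        · rw [mem_singleton] at hz; rw [hz]; exact hκ
      rw [sum_pair hne'.symm, h, h1] at h2
      have := hpos κ hκ
      omega
    obtain ⟨⟨v₀, hv₀, hv₀'⟩, huniq⟩ := ih h1
    refine ⟨⟨v₀ * κ₀, ?_, hv₀'⟩, ?_⟩
    · rw [mul_comm]
      exact Subgroup.mul_mem_sup (mem_KF.mp hκ₀) hv₀
    · have key : ∀ v ∈ K ⊔ jn P, F v ≠ 0 → ∃ v' ∈ jn P, v = v' * κ₀ ∧ F (v' * κ₀) ≠ 0 := by
        intro v hv hFv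
        obtain ⟨κ, hκ, v', hv', rfl⟩ := Subgroup.mem_sup.mp hv
        by_cases hk : κ = κ₀
        · subst hk
          exact ⟨v', hv', mul_comm _ _, by rwa [mul_comm]⟩
        · exfalso
          have := (nrm_eq_zero.mp (hz κ (mem_KF.mpr hκ) hk)).forall v' hv'
          apply hFv
          rw [mul_comm]
          exact this
      intro v hv w hw hFv hFw
      obtain ⟨v', hv', rfl, h3⟩ := key v hv hFv
      obtain ⟨w', hw', rfl, h4⟩ := key w hw hFw
      rw [huniq v' hv' w' hw' h3 h4]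

/-- an empty slice -/
lemma lb_of_slice {K : Subgroup G} {P : List (Subgroup G)} {F : G → ℤ} {u κ : G}
    (hLB : LB (K :: P) (TT u F)) (hκ : κ ∈ K) (h : nrm P (TT (u * κ) F) = 0) :
    LB P (TT u F) := by
  have h1 := hLB 1 K.one_mem κ hκ
  refine h1.congr fun v hv => ?_
  have h2 := (nrm_eq_zero.mp h).forall v hv
  rw [mul_one]
  have h3 : TT u F (v * κ) = TT (u * κ) F v := by
    simp only [TT_apply]
    rw [mul_assoc, mul_comm κ v]
  rw [h3, h2, sub_zero]

/-- short cosets -/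
lemma lb_short {K : Subgroup G} {P : List (Subgroup G)} {F : G → ℤ} {u : G}
    (hLB : LB (K :: P) (TT u F)) (h : nrm (K :: P) (TT u F) < Nat.card K) :
    LB P (TT u F) := by
  have hex : ∃ κ ∈ K, nrm P (TT (u * κ) F) = 0 := by
    by_contra hcon
    push Not at hcon
    have h1 : ∀ κ ∈ KF K, 1 ≤ nrm P (TT (u * κ) F) := by
      intro κ hκ
      have h2 := nrm_nonneg P (TT (u * κ) F)
      have h3 := hcon κ (mem_KF.mp hκ)
      omega
    have h4 : (Nat.card K : ℤ) ≤ nrm (K :: P) (TT u F) := by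
      rw [nrm_cons_TT]
      calc (Nat.card K : ℤ) = ∑ κ ∈ KF K, (1 : ℤ) := by simp [card_KF]
        _ ≤ _ := sum_le_sum fun κ hκ => h1 κ hκ
    omega
  obtain ⟨κ, hκ, h1⟩ := hex
  exact lb_of_slice hLB hκ h1

/-- cosets which are stable under a symmetry -/
lemma lb_sym {K : Subgroup G} {P : List (Subgroup G)} {F : G → ℤ}
    (hLB : ∀ u, LB (K :: P) (TT u F)) (hν : ∀ K' ∈ P, (3 : ℤ) ≤ Nat.card K')
    {κ₀ v₀ : G} {ε : ℤ} (hκ₀ : κ₀ ∈ K) (hv₀ : v₀ ∈ jn P) (hε : ε = 1 ∨ ε = -1)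
    (hF : ∀ u, F (κ₀ * v₀ * u) = ε * F u) (hne : ε = -1 ∨ v₀ ≠ 1) {u : G}
    (h : nrm (K :: P) (TT u F) < 2 * Nat.card K) :
    LB P (TT u F) := by
  have hex : ∃ κ ∈ K, nrm P (TT (u * κ) F) ≤ 1 := by
    by_contra hcon
    push Not at hcon
    have h1 : ∀ κ ∈ KF K, 2 ≤ nrm P (TT (u * κ) F) := by
      intro κ hκ
      have h3 := hcon κ (mem_KF.mp hκ)
      omega
    have h4 : (Nat.card K : ℤ) * 2 ≤ nrm (K :: P) (TT u F) := by
      rw [nrm_cons_TT]
      calc (Nat.card K : ℤ) * 2 = ∑ κ ∈ KF K, (2 : ℤ) := by simp [card_KF]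
        _ ≤ _ := sum_le_sum fun κ hκ => h1 κ hκ
    omega
  obtain ⟨κ, hκ, h1⟩ := hex
  have h0 := nrm_nonneg P (TT (u * κ) F)
  rcases (show nrm P (TT (u * κ) F) = 0 ∨ nrm P (TT (u * κ) F) = 1 by omega) with h2 | h2
  · exact lb_of_slice (hLB u) hκ h2
  · exfalso
    -- the slice at `u κ κ₀`
    have hs : ∀ v, TT (u * κ * κ₀) F v = ε * TT (u * κ * v₀⁻¹) F v := by
      intro v
      simp only [TT_apply]
      rw [← hF]
      congr 1
      calc u * κ * κ₀ * v = κ₀ * (u * κ) * v := by rw [mul_comm (u * κ) κ₀]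
        _ = κ₀ * v₀ * (u * κ * v₀⁻¹ * v) := by
          have : κ₀ * v₀ * (u * κ * v₀⁻¹ * v) = κ₀ * (u * κ) * v * (v₀ * v₀⁻¹) := by
            simp only [mul_assoc, mul_comm, mul_left_comm]
          rw [this, mul_inv_cancel, mul_one]
    have h3 : nrm P (TT (u * κ * κ₀) F) = 1 := by
      have h4 : nrm P (TT (u * κ * v₀⁻¹) F) = 1 := by
        rw [nrm_TT_jn _ _ _ ((jn P).inv_mem hv₀), h2]
      have h5 : TT (u * κ * κ₀) F = fun v => ε * TT (u * κ * v₀⁻¹) F v := funext hs
      rw [h5]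
      rcases hε with rfl | rfl
      · simp only [one_mul]; exact h4
      · have e : (fun v => (-1 : ℤ) * TT (u * κ * v₀⁻¹) F v) =
            fun v => - TT (u * κ * v₀⁻¹) F v := by funext v; ring
        rw [e, nrm_neg]; exact h4
    have h6 : ZZ P (fun v => TT u F (v * κ) - TT u F (v * (κ * κ₀))) := by
      refine zz_of_lb hν (hLB u κ hκ (κ * κ₀) (K.mul_mem hκ hκ₀)) ?_
      have h7 := nrm_sub_le (P := P) (fun v => TT u F (v * κ)) (fun v => TT u F (v * (κ * κ₀)))
      rw [slice_eq, slice_eq, ← mul_assoc, h2, h3] at h7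
      omega
    have h8 : ∀ v ∈ jn P, TT (u * κ) F v = ε * TT (u * κ) F (v₀⁻¹ * v) := by
      intro v hv
      have h9 := h6.forall v hv
      have e1 : TT u F (v * κ) = TT (u * κ) F v := by
        simp only [TT_apply]; rw [mul_assoc, mul_comm κ v]
      have e2 : TT u F (v * (κ * κ₀)) = TT (u * κ * κ₀) F v := by
        simp only [TT_apply]; congr 1; simp only [mul_assoc, mul_comm, mul_left_comm]
      rw [e1, e2, hs] at h9
      have e3 : TT (u * κ * v₀⁻¹) F v = TT (u * κ) F (v₀⁻¹ * v) := by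
        simp only [TT_apply]; rw [mul_assoc]
      rw [e3] at h9
      exact sub_eq_zero.mp h9
    obtain ⟨⟨v, hv, hFv⟩, huniq⟩ := unique_of_nrm_one h2
    have h10 := h8 v hv
    have h11 : TT (u * κ) F (v₀⁻¹ * v) ≠ 0 := by
      intro h12
      rw [h12, mul_zero] at h10
      exact hFv h10
    have h12 := huniq v hv (v₀⁻¹ * v) ((jn P).mul_mem ((jn P).inv_mem hv₀) hv) hFv h11
    have h13 : v₀ = 1 := by
      have h14 : v₀ * v = v := by
        conv_lhs => rw [h12]
        rw [mul_inv_cancel_left]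
      exact mul_eq_right.mp h14
    rcases hne with rfl | hne
    · rw [← h12] at h10
      apply hFv
      omega
    · exact hne h13

/-- two disjoint cosets -/
lemma two_nrm_le {G : Type*} [CommGroup G] [Fintype G] {P : List (Subgroup G)} (hP : Ind P)
    {F : G → ℤ} {e : G} (he : e ∉ jn P) (hF : ∀ u, |F (e * u)| = |F u|) (u : G) :
    2 * nrm P (TT u F) ≤ ∑ v, |F v| := by
  classical
  have h1 := nrm_le_sum hP (TT u F)
  set S : Finset G := (KF (jn P)).image (fun v => u * v) with hS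
  set S' : Finset G := (KF (jn P)).image (fun v => e * (u * v)) with hS'
  have e1 : ∑ v ∈ KF (jn P), |TT u F v| = ∑ w ∈ S, |F w| := by
    rw [hS, sum_image]
    · rfl
    · intro a _ b _ hab
      exact mul_left_cancel hab
  have e2 : ∑ v ∈ KF (jn P), |TT u F v| = ∑ w ∈ S', |F w| := by
    rw [hS', sum_image]
    · exact sum_congr rfl fun v _ => (hF _).symm
    · intro a _ b _ hab
      exact mul_left_cancel (mul_left_cancel hab)
  have hdisj : Disjoint S S' := by
    rw [disjoint_left]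
    intro w hw hw'
    obtain ⟨a, ha, rfl⟩ := mem_image.mp hw
    obtain ⟨b, hb, hab⟩ := mem_image.mp hw'
    apply he
    have h2 : e = a * b⁻¹ := by
      have h3 : e * (u * b) = u * a := hab
      have h4 : u * (e * b) = u * a := by rw [← h3, mul_left_comm]
      have h5 := mul_left_cancel h4
      rw [← h5, mul_inv_cancel_right]
    rw [h2]
    exact (jn P).mul_mem (mem_KF.mp ha) ((jn P).inv_mem (mem_KF.mp hb))
  have h3 : ∑ w ∈ S ∪ S', |F w| ≤ ∑ v, |F v| :=
    sum_le_sum_of_subset_of_nonneg (subset_univ _) (fun _ _ _ => abs_nonneg _)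
  rw [sum_union hdisj] at h3
  linarith

end Gen

end Pool.Agent.Q59.SX
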